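import Pool.Agent.H343R2.PhiSum
import Pool.Agent.H343R2.Norm

/-! Choice of the cut-offs. -/

open Finset MeasureTheory

namespace H321VP

open H343

lemma cuts (ε B : ℝ) (hε : 0 < ε) (hε1 : ε ≤ 1 / 100) : ∃ t0 : ℝ, 1 ≤ t0 ∧
    ∀ x Y : ℝ, 0 < x → 0 < Y → Y ≤ 1 → t0 ≤ Real.log (x * Y) → 1 ≤ x * Y →
    Real.log x < (3 / 2 - 100 * ε) * Real.log (x * Y) →
    Range ε x Y ∧ ∃ Q R N M : ℕ, Cuts ε B x Y Q R N M ∧ (M : ℝ) ≤ Real.exp B * x + 1 ∧
      3 / 2 * Real.log (x * Y) - Real.log x - 6 * ε * Real.log (x * Y) ≤ LL Q R := by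
  obtain ⟨C3, hC3, hLL⟩ := LL_lower
  refine ⟨max ((5 + C3) / ε) 100, le_trans (by norm_num) (le_max_right _ _), ?_⟩
  intro x Y hx0 hY0 hY1 ht hH1 hg
  have ht1 : (5 + C3) / ε ≤ Real.log (x * Y) := (le_max_left _ _).trans ht
  have ht2 : 100 ≤ Real.log (x * Y) := (le_max_right _ _).trans ht
  rw [div_le_iff₀ hε] at ht1
  set t := Real.log (x * Y) with htdef
  have ht0 : 0 < t := by linarith
  have hHpos : 0 < x * Y := by positivity
  have hH : x * Y = Real.exp t := (Real.exp_log hHpos).symm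
  have hlogx : t = Real.log x + Real.log Y := Real.log_mul hx0.ne' hY0.ne'
  have hlogY0 : Real.log Y ≤ 0 := Real.log_nonpos hY0.le hY1
  have hHpow : ∀ a : ℝ, (x * Y) ^ a = Real.exp (t * a) := by
    intro a
    rw [hH, ← Real.exp_mul]
  have hxe : x = Real.exp (Real.log x) := (Real.exp_log hx0).symm
  refine ⟨⟨hx0, hY0, hH1, ?_, ?_⟩, ?_⟩
  · rw [hHpow, hxe]
    apply Real.exp_le_exp.2
    nlinarith
  · rw [hHpow]
    nth_rw 1 [hxe]
    apply Real.exp_le_exp.2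
    nlinarith
  · have hlogY : Real.log (1 / Y) = Real.log x - t := by
      rw [one_div, Real.log_inv]
      linarith
    set q0 : ℝ := 1 / Y * (x * Y) ^ (4 * ε) with hq0
    have hY1' : 1 ≤ 1 / Y := by rw [le_div_iff₀ hY0]; linarith
    have hp1 : 1 ≤ (x * Y) ^ (4 * ε) := Real.one_le_rpow hH1 (by positivity)
    have hq1 : 1 ≤ q0 := by
      rw [hq0]
      nlinarith
    set r0 : ℝ := (x * Y) ^ (1 / 2 - ε) with hr0
    have hr1 : 1 ≤ r0 := Real.one_le_rpow hH1 (by linarith)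
    have hlogq0 : Real.log q0 = (Real.log x - t) + 4 * ε * t := by
      rw [hq0, Real.log_mul (by positivity) (by positivity), Real.log_rpow hHpos, hlogY]
    have hlogr0 : Real.log r0 = (1 / 2 - ε) * t := by
      rw [hr0, Real.log_rpow hHpos]
    have hln2 := Real.log_two_lt_d9
    have hQ1 : (1 : ℝ) ≤ (⌈q0⌉₊ : ℕ) := hq1.trans (Nat.le_ceil q0)
    have hQ2 : ((⌈q0⌉₊ : ℕ) : ℝ) ≤ 2 * q0 := by
      have := Nat.ceil_lt_add_one (a := q0) (by linarith)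
      linarith
    have hlogQ : Real.log (⌈q0⌉₊ : ℕ) ≤ Real.log 2 + Real.log q0 := by
      rw [← Real.log_mul (by norm_num) (by linarith)]
      exact Real.log_le_log (by linarith) hQ2
    have hR1 : r0 ≤ 2 * (⌊r0⌋₊ : ℕ) := by
      have h1 := Nat.lt_floor_add_one r0
      have h2 : 1 ≤ ⌊r0⌋₊ := Nat.le_floor (by simpa using hr1)
      have h3 : (1 : ℝ) ≤ (⌊r0⌋₊ : ℕ) := by exact_mod_cast h2
      linarith
    have hR2 : (0 : ℝ) < (⌊r0⌋₊ : ℕ) := by linarith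
    have hlogR : Real.log r0 ≤ Real.log 2 + Real.log (⌊r0⌋₊ : ℕ) := by
      rw [← Real.log_mul (by norm_num) hR2.ne']
      exact Real.log_le_log (by linarith) hR1
    have hdiff : 3 / 2 * t - Real.log x - 5 * ε * t - 5 ≤
        Real.log (⌊r0⌋₊ : ℕ) - Real.log (⌈q0⌉₊ : ℕ) := by
      rw [hlogr0] at hlogR
      rw [hlogq0] at hlogQ
      linarith
    have hpos : 0 < 3 / 2 * t - Real.log x - 5 * ε * t - 5 := by nlinarith
    have hQR : ⌈q0⌉₊ ≤ ⌊r0⌋₊ := by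
      have h1 : Real.log (⌈q0⌉₊ : ℕ) < Real.log (⌊r0⌋₊ : ℕ) := by linarith
      have h2 := (Real.log_lt_log_iff (by linarith) hR2).1 h1
      exact_mod_cast h2.le
    refine ⟨⌈q0⌉₊, ⌊r0⌋₊, ⌈Real.exp B * (⌊r0⌋₊ : ℕ) * Y⌉₊, ⌈Real.exp B * x⌉₊, ?_,
      (Nat.ceil_lt_add_one (by positivity)).le, ?_⟩
    · refine ⟨?_, ?_, Nat.floor_le (by linarith), Nat.le_ceil _, Nat.le_ceil _⟩
      · refine le_trans ?_ (Nat.le_ceil q0)
        rw [hq0]
        nlinarith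
      · refine le_trans (le_of_eq ?_) (Nat.le_ceil q0)
        rw [hq0]
        ring
    · have h1 := hLL ⌈q0⌉₊ ⌊r0⌋₊ (by exact_mod_cast hQ1) hQR
      refine le_trans ?_ h1
      linarith

end H321VP
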