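import Pool.Agent.H321R3.VP.Osc
import Pool.Agent.H345R2.A2.Four

/-! Test functions. -/

open Finset MeasureTheory Filter Topology

namespace H321VP

open H343

/-- the sine quotient in logarithmic coordinates -/
noncomputable def sn (v : ℝ) : ℝ := Real.sin (Real.pi * Real.exp v) / (Real.pi * Real.exp v)

/-- the squared sine quotient -/
noncomputable def fs (x : ℝ) : ℝ := (Real.sin (Real.pi * x) / (Real.pi * x)) ^ 2

lemma sn_smooth : ContDiff ℝ ((⊤ : ℕ∞) : WithTop ℕ∞) sn := by
  unfold sn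
  apply ContDiff.div
  · exact Real.contDiff_sin.comp (contDiff_const.mul Real.contDiff_exp)
  · exact contDiff_const.mul Real.contDiff_exp
  · intro v
    have := Real.pi_pos
    have := Real.exp_pos v
    positivity

lemma fs_exp (v : ℝ) : fs (Real.exp v) = sn v ^ 2 := rfl

lemma fs_nonneg (x : ℝ) : 0 ≤ fs x := sq_nonneg _

lemma sn_abs (v : ℝ) : |sn v| ≤ 1 := by
  unfold sn
  have h : 0 < Real.pi * Real.exp v := by
    have := Real.pi_pos
    positivity
  rw [abs_div, abs_of_pos h, div_le_one h]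
  have := Real.abs_sin_le_abs (x := Real.pi * Real.exp v)
  rwa [abs_of_pos h] at this

lemma fs_le (x : ℝ) : fs x ≤ 1 := by
  unfold fs
  rw [← sq_abs]
  apply pow_le_one₀ (abs_nonneg _)
  rw [abs_div]
  rcases eq_or_ne x 0 with h | h
  · rw [h]; simp
  · rw [div_le_one (abs_pos.2 (mul_ne_zero Real.pi_pos.ne' h))]
    exact Real.abs_sin_le_abs

lemma hat_RR {x : ℝ} (hx : x ≠ 0) : H370.A2.RR H370.A2.hatf 1 x = fs x := by
  unfold fs
  rw [← H370.A2.fejer hx]
  unfold H370.A2.RR
  refine intervalIntegral.integral_congr fun β hβ => ?_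
  rw [Set.uIcc_of_le (by norm_num)] at hβ
  have h1 : |β| ≤ 1 := abs_le.2 ⟨hβ.1, hβ.2⟩
  have h2 : H370.A2.hatf β = 1 - |β| := by
    unfold H370.A2.hatf
    exact max_eq_right (by linarith)
  show H370.A2.hatf β * Real.cos (2 * Real.pi * β * x) = (1 - |β|) * Real.cos (2 * Real.pi * x * β)
  rw [h2, show 2 * Real.pi * β * x = 2 * Real.pi * x * β by ring]

lemma hat_cont : Continuous H370.A2.hatf := by unfold H370.A2.hatf; fun_prop

lemma hat_zero : ∀ x, (1 : ℝ) ≤ |x| → H370.A2.hatf x = 0 := fun _ h => H370.A2.hatf_zero h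

lemma hat_C (x : ℝ) : |H370.A2.RR H370.A2.hatf 1 x| * x ^ 2 ≤ 1 := by
  rcases eq_or_ne x 0 with h | h
  · rw [h]; simp
  · rw [hat_RR h, abs_of_nonneg (fs_nonneg x)]
    unfold fs
    have hpi := Real.pi_gt_three
    rw [div_pow, mul_pow, div_mul_eq_mul_div, div_le_one (by positivity)]
    have h1 := Real.sin_sq_le_one (Real.pi * x)
    have h2 : 0 ≤ x ^ 2 := sq_nonneg x
    have h3 : (1 : ℝ) ≤ Real.pi ^ 2 := by nlinarith
    exact mul_le_mul_of_nonneg_right (h1.trans h3) h2

lemma fs_ae : H370.A2.RR H370.A2.hatf 1 =ᵐ[volume] fs := by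
  have h0 : ∀ᵐ x : ℝ, x ≠ 0 := by
    rw [ae_iff]
    simp
  filter_upwards [h0] with x hx
  exact hat_RR hx

lemma fs_int : Integrable fs :=
  (H370.A2.RR_integrable hat_cont hat_zero hat_C).congr fs_ae

lemma fs_integral : ∫ x, fs x = 1 := by
  rw [← integral_congr_ae fs_ae]
  have h1 := H370.A2.RR_inv hat_cont hat_zero hat_C 0
  simp only [mul_zero, Real.cos_zero, mul_one] at h1
  rw [h1]
  unfold H370.A2.evp H370.A2.hatf
  simp

lemma fs_half : ∫ x in Set.Ioi (0 : ℝ), fs x = 1 / 2 := by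
  have h1 := integral_comp_abs (f := fs)
  have h2 : ∫ x, fs |x| = ∫ x, fs x := by
    congr 1
    ext x
    unfold fs
    rcases abs_choice x with h | h
    · rw [h]
    · rw [h, mul_neg, Real.sin_neg, neg_div_neg_eq]
  rw [h2, fs_integral] at h1
  linarith

/-- most of the mass of the kernel -/
lemma sn_mass (η : ℝ) (hη : 0 < η) : ∃ b : ℝ, 0 < b ∧
    1 / 2 - η ≤ ∫ v in (-b)..b, sn v ^ 2 * Real.exp v := by
  have h1 : Tendsto (fun b : ℝ => ∫ x in (0 : ℝ)..b, fs x) atTop (𝓝 (1 / 2)) := by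
    have := intervalIntegral_tendsto_integral_Ioi 0 (fs_int.integrableOn (s := Set.Ioi 0))
      tendsto_id
    rw [fs_half] at this
    exact this
  have h2 : ∀ᶠ b : ℝ in atTop, 1 / 2 - η / 2 < ∫ x in (0 : ℝ)..(Real.exp b), fs x :=
    (h1.comp Real.tendsto_exp_atTop).eventually (lt_mem_nhds (by linarith))
  have h3 : ∀ᶠ b : ℝ in atTop, Real.exp (-b) < η / 2 := by
    have : Tendsto (fun b : ℝ => Real.exp (-b)) atTop (𝓝 0) := Real.tendsto_exp_neg_atTop_nhds_zero
    exact this.eventually (gt_mem_nhds (by positivity))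
  obtain ⟨b, ⟨h4, h5⟩, h6⟩ := ((h2.and h3).and (eventually_gt_atTop 0)).exists
  refine ⟨b, h6, ?_⟩
  have hi : ∀ x y : ℝ, IntervalIntegrable fs volume x y := fun x y => fs_int.intervalIntegrable
  have h7 : ∫ v in (-b)..b, sn v ^ 2 * Real.exp v = ∫ x in (Real.exp (-b))..(Real.exp b), fs x := by
    have hcf : ContinuousOn fs (Real.exp '' Set.uIcc (-b) b) := by
      unfold fs
      apply ContinuousOn.pow
      apply ContinuousOn.div (by fun_prop) (by fun_prop)
      rintro x ⟨v, _, rfl⟩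
      have := Real.pi_pos
      have := Real.exp_pos v
      positivity
    have := intervalIntegral.integral_comp_mul_deriv'' (a := -b) (b := b) (f := Real.exp)
      (f' := Real.exp) (g := fs) Real.continuous_exp.continuousOn
      (fun x _ => (Real.hasDerivAt_exp x).hasDerivWithinAt) Real.continuous_exp.continuousOn hcf
    exact this
  have h8 := intervalIntegral.integral_add_adjacent_intervals (hi 0 (Real.exp (-b)))
    (hi (Real.exp (-b)) (Real.exp b))
  have h9 : ∫ x in (0 : ℝ)..(Real.exp (-b)), fs x ≤ Real.exp (-b) := by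
    have h10 : ∫ x in (0 : ℝ)..(Real.exp (-b)), fs x ≤ ∫ x in (0 : ℝ)..(Real.exp (-b)), (1 : ℝ) :=
      intervalIntegral.integral_mono_on (Real.exp_pos _).le (hi _ _) (by simp)
        fun x _ => fs_le x
    rw [intervalIntegral.integral_const] at h10
    simpa using h10
  rw [h7]
  linarith

lemma test_mono {B B' : ℝ} {f : ℝ → ℝ} (hf : Test B f) (h : B ≤ B') : Test B' f :=
  ⟨hf.smooth, fun v hv => hf.supp v (h.trans hv)⟩

lemma bump_int {c r : ℝ} (f : ContDiffBump c) (hr : f.rIn = r) (g : ℝ → ℝ)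
    (hg : Continuous g) (hg0 : ∀ v, 0 ≤ g v) (hr0 : 0 ≤ r) :
    ∫ v in (c - r)..(c + r), g v ≤ ∫ v, f v * g v := by
  have hint : Integrable (fun v => f v * g v) := by
    apply Continuous.integrable_of_hasCompactSupport
    · exact f.continuous.mul hg
    · exact f.hasCompactSupport.mul_right
  rw [intervalIntegral.integral_of_le (by linarith), ← integral_indicator measurableSet_Ioc]
  apply integral_mono_of_nonneg
  · refine Filter.Eventually.of_forall fun v => ?_
    apply Set.indicator_nonneg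
    intro v _
    exact hg0 v
  · exact hint
  · refine Filter.Eventually.of_forall fun v => ?_
    simp only [Set.indicator]
    split_ifs with hv
    · have : f v = 1 := by
        apply f.one_of_mem_closedBall
        rw [Metric.mem_closedBall, Real.dist_eq, hr, abs_le]
        constructor <;> linarith [hv.1, hv.2]
      rw [this, one_mul]
    · exact mul_nonneg f.nonneg (hg0 v)

/-- the test functions -/
lemma tests (η : ℝ) (hη : 0 < η) (hη1 : η ≤ 1) : ∃ (B : ℝ) (ρ lam : ℝ → ℝ), 1 ≤ B ∧ Test B ρ ∧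
    Test B lam ∧ (∀ v, 0 ≤ ρ v ∧ ρ v ≤ 1) ∧ (∀ v, 0 ≤ lam v ∧ lam v ≤ 1) ∧
    (∀ v, 0 ≤ v → ρ v = 0) ∧ 1 - η ≤ (∫ v, ρ v * Real.exp v) ∧
    1 / 2 - η ≤ ∫ v, lam v * (sn v ^ 2 * Real.exp v) := by
  obtain ⟨b, hb0, hb⟩ := sn_mass η hη
  obtain ⟨A, hA1, hA2⟩ : ∃ A : ℝ, 1 ≤ A ∧ Real.exp (-A) ≤ η / 4 := by
    have : Tendsto (fun b : ℝ => Real.exp (-b)) atTop (𝓝 0) := Real.tendsto_exp_neg_atTop_nhds_zero
    obtain ⟨A, h1, h2⟩ := ((eventually_ge_atTop 1).and
      (this.eventually (gt_mem_nhds (show 0 < η / 4 by positivity)))).exists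
    exact ⟨A, h1, h2.le⟩
  -- the window
  set κ : ℝ := η / 4 with hκ
  let f : ContDiffBump (-(A / 2) : ℝ) := ⟨A / 2 - κ, A / 2, by linarith, by linarith⟩
  let g : ContDiffBump (0 : ℝ) := ⟨b, b + 1, hb0, by linarith⟩
  have hfs : ∀ v, f v ≠ 0 → -A < v ∧ v < 0 := by
    intro v hv
    by_contra hcon
    apply hv
    apply f.zero_of_le_dist
    rw [Real.dist_eq]
    show A / 2 ≤ |v - -(A / 2)|
    rw [le_abs]
    rcases lt_or_ge (-A) v with h | h
    · left
      have : 0 ≤ v := by
        by_contra h2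
        exact hcon ⟨h, lt_of_not_ge h2⟩
      linarith
    · right
      linarith
  have hf : Test A f := ⟨f.contDiff, fun v hv => by
    by_contra hne
    obtain ⟨h1, h2⟩ := hfs v hne
    rw [abs_of_neg h2] at hv
    linarith⟩
  have hg : Test (b + 1) g := ⟨g.contDiff, fun v hv => by
    apply g.zero_of_le_dist
    rw [Real.dist_eq, sub_zero]
    exact hv⟩
  refine ⟨max A (b + 1), f, g, hA1.trans (le_max_left _ _), test_mono hf (le_max_left _ _),
    test_mono hg (le_max_right _ _), fun v => ⟨f.nonneg, f.le_one⟩, fun v => ⟨g.nonneg, g.le_one⟩,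
    fun v hv => ?_, ?_, ?_⟩
  · by_contra hne
    linarith [(hfs v hne).2]
  · have h1 := bump_int f rfl Real.exp Real.continuous_exp
      (fun v => (Real.exp_pos v).le) (by show 0 ≤ A / 2 - κ; linarith)
    rw [integral_exp] at h1
    have e1 : -(A / 2) + f.rIn = -κ := by
      show -(A / 2) + (A / 2 - κ) = -κ
      ring
    have e2 : -(A / 2) - f.rIn = -A + κ := by
      show -(A / 2) - (A / 2 - κ) = -A + κ
      ring
    rw [e1, e2] at h1
    refine le_trans ?_ h1
    have h2 : 1 - κ ≤ Real.exp (-κ) := by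
      have := Real.add_one_le_exp (-κ); linarith
    have h3 : Real.exp (-A + κ) ≤ 2 * Real.exp (-A) := by
      rw [Real.exp_add, mul_comm]
      have h4 : Real.exp κ ≤ 2 := by
        have h5 : Real.exp κ ≤ Real.exp (1 / 2) := Real.exp_le_exp.2 (by linarith)
        have h6 : Real.exp (1 / 2) ^ 2 ≤ 2 ^ 2 := by
          rw [← Real.exp_nat_mul]
          have := Real.exp_one_lt_d9
          norm_num
          linarith
        have h7 := abs_le_of_sq_le_sq' h6 (by norm_num) |>.2
        linarith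
      have := Real.exp_pos (-A)
      gcongr
    linarith
  · have h1 := bump_int g rfl (fun v => sn v ^ 2 * Real.exp v)
      ((sn_smooth.continuous.pow 2).mul Real.continuous_exp)
      (fun v => by positivity) (by show 0 ≤ b; exact hb0.le)
    refine le_trans ?_ h1
    have e1 : (0 : ℝ) - g.rIn = -b := by
      show (0 : ℝ) - b = -b
      ring
    have e2 : (0 : ℝ) + g.rIn = b := by
      show (0 : ℝ) + b = b
      ring
    rw [e1, e2]
    exact hb

end H321VP
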