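import Pool.Agent.H321R3.VP.Osc

/-! Duality for the variance of primes in short intervals. -/

open Finset MeasureTheory

namespace H321VP

open H343

/-- the number of primes (weighted) in the interval of length `H` around `y`, minus `H` -/
noncomputable def DD (M : ℕ) (H y : ℝ) : ℝ :=
  ∑ n ∈ Icc 1 M, ArithmeticFunction.vonMangoldt n *
    (Set.Icc ((n : ℝ) - H / 2) (n + H / 2)).indicator (fun _ => (1 : ℝ)) y - H

/-- the window -/
noncomputable def WW (ρ : ℝ → ℝ) (a X y : ℝ) : ℝ := ρ (Real.log (max y a / X))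

/-- the exponential polynomial -/
noncomputable def BB {ι : Type} (S : Finset ι) (θ c : ι → ℝ) (y : ℝ) : ℂ :=
  ∑ i ∈ S, (c i : ℂ) * ex (y * θ i)

section window

variable {B X : ℝ} {ρ : ℝ → ℝ} (hρ : Test B ρ) (hρ0 : ∀ v, 0 ≤ v → ρ v = 0) (hB : 0 < B)
  (hX : 0 < X)

include hρ hB hX in
lemma WW_low {y : ℝ} (hy : y ≤ X * Real.exp (-B)) : WW ρ (X * Real.exp (-B)) X y = 0 := by
  unfold WW
  rw [max_eq_right hy, mul_div_cancel_left₀ _ hX.ne', Real.log_exp]
  apply hρ.supp
  rw [abs_neg, abs_of_pos hB]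

include hρ0 hX in
lemma WW_high {y : ℝ} (hy : X ≤ y) : WW ρ (X * Real.exp (-B)) X y = 0 := by
  unfold WW
  apply hρ0
  apply Real.log_nonneg
  rw [le_div_iff₀ hX, one_mul]
  exact hy.trans (le_max_left _ _)

include hρ hB hX in
lemma WW_exp (v : ℝ) : WW ρ (X * Real.exp (-B)) X (X * Real.exp v) = ρ v := by
  rcases le_or_gt (-B) v with h | h
  · unfold WW
    rw [max_eq_left (by gcongr), mul_div_cancel_left₀ _ hX.ne', Real.log_exp]
  · rw [WW_low hρ hB hX (by gcongr)]
    symm
    apply hρ.supp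
    rw [abs_of_neg (by linarith)]
    linarith

include hρ hB hX in
lemma WW_log {y : ℝ} (hy : 0 < y) : WW ρ (X * Real.exp (-B)) X y = ρ (Real.log (y / X)) := by
  have h := WW_exp hρ hB hX (Real.log (y / X))
  rw [Real.exp_log (by positivity), mul_div_cancel₀ _ hX.ne'] at h
  exact h

omit hρ hρ0 in
include hX in
lemma WW_lip {K : ℝ} (hK0 : 0 ≤ K) (hK : ∀ u v, |ρ u - ρ v| ≤ K * |u - v|) (y z : ℝ) :
    |WW ρ (X * Real.exp (-B)) X y - WW ρ (X * Real.exp (-B)) X z| ≤
      K / (X * Real.exp (-B)) * |y - z| := by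
  set a := X * Real.exp (-B) with ha
  have ha0 : 0 < a := by positivity
  have hlog : ∀ u w : ℝ, a ≤ w → w ≤ u → |Real.log (u / X) - Real.log (w / X)| ≤ (u - w) / a := by
    intro u w haw hwu
    have hw : 0 < w := by linarith
    have hu : 0 < u := by linarith
    rw [← Real.log_div (by positivity) (by positivity)]
    have e : u / X / (w / X) = u / w := by field_simp
    rw [e]
    have h1 : 1 ≤ u / w := by rw [le_div_iff₀ hw]; linarith
    rw [abs_of_nonneg (Real.log_nonneg h1)]
    have h2 := Real.log_le_sub_one_of_pos (show 0 < u / w by positivity)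
    refine h2.trans ?_
    have e2 : u / w - 1 = (u - w) / w := by field_simp
    rw [e2]
    apply div_le_div_of_nonneg_left (by linarith) ha0 haw
  have hmain : ∀ u w : ℝ, a ≤ u → a ≤ w → |Real.log (u / X) - Real.log (w / X)| ≤ |u - w| / a := by
    intro u w hu hw
    rcases le_total w u with h | h
    · rw [abs_of_nonneg (by linarith : 0 ≤ u - w)]
      exact hlog u w hw h
    · rw [abs_sub_comm, abs_sub_comm u w, abs_of_nonneg (by linarith : 0 ≤ w - u)]
      exact hlog w u hu h
  unfold WW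
  refine (hK _ _).trans ?_
  have h3 := hmain (max y a) (max z a) (le_max_right _ _) (le_max_right _ _)
  have h4 : |max y a - max z a| ≤ |y - z| := abs_max_sub_max_le_abs _ _ _
  calc K * |Real.log (max y a / X) - Real.log (max z a / X)| ≤ K * (|y - z| / a) := by
        apply mul_le_mul_of_nonneg_left _ hK0
        refine h3.trans ?_
        gcongr
    _ = _ := by ring

end window

lemma rho_lip {B : ℝ} {ρ : ℝ → ℝ} (hρ : Test B ρ) :
    ∃ K : ℝ, 0 < K ∧ ∀ u v, |ρ u - ρ v| ≤ K * |u - v| := by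
  obtain ⟨C, hC⟩ := ContDiff.lipschitzWith_of_hasCompactSupport (tsupp hρ) hρ.smooth
    (by simp)
  refine ⟨C + 1, by positivity, fun u v => ?_⟩
  have h := hC.dist_le_mul u v
  rw [Real.dist_eq, Real.dist_eq] at h
  have := abs_nonneg (u - v)
  linarith

/-- change of variables -/
lemma cov {E : Type*} [NormedAddCommGroup E] [NormedSpace ℝ E] [CompleteSpace E]
    {B X : ℝ} (hB : 0 < B) (hX : 0 < X) (P : ℝ → E)
    (hP : Continuous P) (h1 : ∀ y, y ≤ X * Real.exp (-B) → P y = 0) (h2 : ∀ y, X ≤ y → P y = 0) :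
    ∫ y in (X * Real.exp (-B))..X, P y = X • ∫ v, Real.exp v • P (X * Real.exp v) := by
  have h3 : ∫ v in (-B)..0, (X * Real.exp v) • P (X * Real.exp v) =
      ∫ y in (X * Real.exp (-B))..(X * Real.exp 0), P y := by
    have := intervalIntegral.integral_deriv_smul_comp (a := -B) (b := 0)
      (f := fun v => X * Real.exp v) (f' := fun v => X * Real.exp v) (g := P)
      (fun v _ => (Real.hasDerivAt_exp v).const_mul X)
      (by fun_prop) hP
    exact this
  rw [Real.exp_zero, mul_one] at h3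
  rw [← h3, intervalIntegral.integral_of_le (by linarith), ← integral_smul]
  rw [← integral_indicator measurableSet_Ioc]
  congr 1
  ext v
  by_cases hv : v ∈ Set.Ioc (-B) 0
  · rw [Set.indicator_of_mem hv, smul_smul]
  · rw [Set.indicator_of_notMem hv]
    rw [Set.mem_Ioc, not_and_or, not_lt, not_le] at hv
    rcases hv with hv | hv
    · rw [h1 _ (by gcongr), smul_zero, smul_zero]
    · rw [h2 _ (by
        have : 1 ≤ Real.exp v := Real.one_le_exp hv.le
        nlinarith), smul_zero, smul_zero]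

lemma BB_cont {ι : Type} (S : Finset ι) (θ c : ι → ℝ) : Continuous (BB S θ c) := by
  unfold BB
  have := excont
  fun_prop

lemma BB_norm {ι : Type} (S : Finset ι) (θ c : ι → ℝ) (y : ℝ) :
    ‖BB S θ c y‖ ≤ ∑ i ∈ S, |c i| := by
  unfold BB
  refine (norm_sum_le _ _).trans (sum_le_sum fun i _ => ?_)
  rw [norm_mul, exnorm, mul_one, Complex.norm_real, Real.norm_eq_abs]

/-- integral of the exponential over an interval of length `H` -/
lemma int_ex (n H θ : ℝ) (hθ : 0 < θ) :
    ∫ y in (n - H / 2)..(n + H / 2), ex (y * θ) =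
      ((Real.sin (Real.pi * H * θ) / (Real.pi * θ) : ℝ) : ℂ) * ex (n * θ) := by
  have hpi := Real.pi_pos
  have hk : (2 * (Real.pi : ℂ) * Complex.I * θ) ≠ 0 := by
    have : (θ : ℂ) ≠ 0 := by exact_mod_cast hθ.ne'
    have : (Real.pi : ℂ) ≠ 0 := by exact_mod_cast hpi.ne'
    simp [*, Complex.I_ne_zero]
  have hd : ∀ y ∈ Set.uIcc (n - H / 2) (n + H / 2), HasDerivAt
      (fun y : ℝ => ex (y * θ) / (2 * (Real.pi : ℂ) * Complex.I * θ)) (ex (y * θ)) y := by
    intro y _
    have h1 : HasDerivAt (fun y : ℝ => y * θ) θ y := by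
      simpa using (hasDerivAt_id y).mul_const θ
    have h2 := (exderiv (y * θ)).scomp y h1
    rw [Complex.real_smul] at h2
    refine (h2.div_const _).congr_deriv ?_
    have hθ' : (θ : ℂ) ≠ 0 := by exact_mod_cast hθ.ne'
    field_simp
  rw [intervalIntegral.integral_eq_sub_of_hasDerivAt hd
    ((excont.comp (by fun_prop)).intervalIntegrable _ _)]
  have e1 : ex ((n + H / 2) * θ) = ex (n * θ) * ex (H * θ / 2) := by
    unfold ex
    rw [← Complex.exp_add]
    congr 1
    push_cast
    ring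
  have e2 : ex ((n - H / 2) * θ) = ex (n * θ) * ex (-(H * θ / 2)) := by
    unfold ex
    rw [← Complex.exp_add]
    congr 1
    push_cast
    ring
  have e3 : ex (H * θ / 2) - ex (-(H * θ / 2)) =
      2 * Complex.I * ((Real.sin (Real.pi * H * θ) : ℝ) : ℂ) := by
    unfold ex
    rw [Complex.ofReal_sin]
    have e4 : ((2 * Real.pi * (H * θ / 2) : ℝ) : ℂ) * Complex.I =
        ((Real.pi * H * θ : ℝ) : ℂ) * Complex.I := by push_cast; ring
    have e5 : ((2 * Real.pi * (-(H * θ / 2)) : ℝ) : ℂ) * Complex.I =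
        -((Real.pi * H * θ : ℝ) : ℂ) * Complex.I := by push_cast; ring
    rw [e4, e5, Complex.sin]
    linear_combination (-(Complex.exp (-((Real.pi * H * θ : ℝ) : ℂ) * Complex.I) -
      Complex.exp (((Real.pi * H * θ : ℝ) : ℂ) * Complex.I))) * Complex.I_sq
  rw [e1, e2, ← sub_div, ← mul_sub, e3]
  have hθ' : (θ : ℂ) ≠ 0 := by exact_mod_cast hθ.ne'
  have hpi' : (Real.pi : ℂ) ≠ 0 := by exact_mod_cast hpi.ne'
  have hI := Complex.I_ne_zero
  push_cast
  field_simp

/-- the sum of two sine coefficients -/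
noncomputable def sg (H θ : ℝ) : ℝ := Real.sin (Real.pi * H * θ) / (Real.pi * θ)

lemma DD_meas (M : ℕ) (H : ℝ) : Measurable (DD M H) := by
  unfold DD
  apply Measurable.sub_const
  apply Finset.measurable_sum
  intro n _
  exact (measurable_const.indicator measurableSet_Icc).const_mul _

lemma DD_bound (M : ℕ) (H y : ℝ) :
    |DD M H y| ≤ ∑ n ∈ Icc 1 M, ArithmeticFunction.vonMangoldt n + |H| := by
  unfold DD
  refine (abs_sub _ _).trans ?_
  gcongr
  refine (abs_sum_le_sum_abs _ _).trans (sum_le_sum fun n _ => ?_)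
  rw [abs_mul, abs_of_nonneg ArithmeticFunction.vonMangoldt_nonneg]
  apply mul_le_of_le_one_right ArithmeticFunction.vonMangoldt_nonneg
  unfold Set.indicator
  split_ifs <;> simp

/-- one prime -/
lemma one_prime {ι : Type} (S : Finset ι) (θ c : ι → ℝ) (hθ : ∀ i ∈ S, 0 < θ i) {B X : ℝ}
    {ρ : ℝ → ℝ} (hX : 0 < X) {K : ℝ} (hK0 : 0 ≤ K)
    (hK : ∀ u v, |ρ u - ρ v| ≤ K * |u - v|) (H : ℝ) (hH : 0 < H) (n : ℝ) :
    ‖(∫ y in (n - H / 2)..(n + H / 2), (WW ρ (X * Real.exp (-B)) X y : ℂ) * BB S θ c y) -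
      (WW ρ (X * Real.exp (-B)) X n : ℂ) * ∑ i ∈ S, ((c i * sg H (θ i) : ℝ) : ℂ) * ex (n * θ i)‖ ≤
      K / (X * Real.exp (-B)) * H ^ 2 * ∑ i ∈ S, |c i| := by
  set a := X * Real.exp (-B) with ha
  have ha0 : 0 < a := by positivity
  have hWl := WW_lip (B := B) hX hK0 hK
  have hWc : Continuous (WW ρ a X) := by
    have : LipschitzWith (K / a).toNNReal (WW ρ a X) := by
      refine LipschitzWith.of_dist_le_mul fun y z => ?_
      rw [Real.dist_eq, Real.dist_eq, Real.coe_toNNReal _ (by positivity)]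
      exact hWl y z
    exact this.continuous
  have hBc := BB_cont S θ c
  have h1 : ∫ y in (n - H / 2)..(n + H / 2), BB S θ c y =
      ∑ i ∈ S, ((c i * sg H (θ i) : ℝ) : ℂ) * ex (n * θ i) := by
    unfold BB
    have hE : ∀ i ∈ S, IntervalIntegrable (fun y : ℝ => (c i : ℂ) * ex (y * θ i)) volume
        (n - H / 2) (n + H / 2) := fun i _ => by
      have h : Continuous fun y : ℝ => ex (y * θ i) := excont.comp (by fun_prop)
      exact (continuous_const.mul h).intervalIntegrable _ _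
    rw [intervalIntegral.integral_finsetSum hE]
    refine sum_congr rfl fun i hi => ?_
    rw [intervalIntegral.integral_const_mul, int_ex n H (θ i) (hθ i hi)]
    unfold sg
    push_cast
    ring
  rw [← h1, ← intervalIntegral.integral_const_mul, ← intervalIntegral.integral_sub
    (Continuous.intervalIntegrable (by fun_prop) _ _)
    (Continuous.intervalIntegrable (by fun_prop) _ _)]
  set Sc := ∑ i ∈ S, |c i| with hSc
  have hSc0 : 0 ≤ Sc := sum_nonneg fun _ _ => abs_nonneg _
  have h2 : ∀ y ∈ Set.uIoc (n - H / 2) (n + H / 2),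
      ‖(WW ρ a X y : ℂ) * BB S θ c y - (WW ρ a X n : ℂ) * BB S θ c y‖ ≤ K / a * H * Sc := by
    intro y hy
    rw [Set.uIoc_of_le (by linarith)] at hy
    rw [← sub_mul, norm_mul, ← Complex.ofReal_sub, Complex.norm_real, Real.norm_eq_abs]
    have h3 := hWl y n
    have h4 : |y - n| ≤ H := by
      rw [abs_le]
      constructor <;> linarith [hy.1, hy.2]
    have h5 := BB_norm S θ c y
    calc |WW ρ a X y - WW ρ a X n| * ‖BB S θ c y‖ ≤ (K / a * |y - n|) * Sc := by gcongr
      _ ≤ (K / a * H) * Sc := by gcongr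
  have h6 := intervalIntegral.norm_integral_le_of_norm_le_const h2
  refine h6.trans (le_of_eq ?_)
  have e : n + H / 2 - (n - H / 2) = H := by ring
  rw [e, abs_of_pos hH]
  ring

/-- the integral of the window against the exponential polynomial -/
lemma int_F {ι : Type} (S : Finset ι) (θ c : ι → ℝ) {B X : ℝ} {g : ℝ → ℝ} {P : ℝ → ℂ}
    (hg : Test B g) (hB : 0 < B) (hX : 0 < X) (hP : Continuous P)
    (hP1 : ∀ y, y ≤ X * Real.exp (-B) → P y = 0) (hP2 : ∀ y, X ≤ y → P y = 0)
    (hPe : ∀ v, (Real.exp v : ℂ) * P (X * Real.exp v) = (g v : ℂ) * BB S θ c (X * Real.exp v))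
    {C θ0 : ℝ} (hC0 : 0 < C)
    (hC : ∀ x τ : ℝ, 0 < x → 0 < τ → ‖∫ v, (g v : ℂ) * ex (x * Real.exp v * τ)‖ ≤ C / (x * τ) ^ 2)
    (hθ0 : 0 < θ0) (hθ : ∀ i ∈ S, θ0 ≤ θ i) :
    ‖∫ y in (X * Real.exp (-B))..X, P y‖ ≤ C / (X * θ0 ^ 2) * ∑ i ∈ S, |c i| := by
  rw [cov hB hX P hP hP1 hP2]
  have h1 : ∫ v, Real.exp v • P (X * Real.exp v) =
      ∑ i ∈ S, (c i : ℂ) * ∫ v, (g v : ℂ) * ex (X * Real.exp v * θ i) := by
    have h2 : ∀ v, Real.exp v • P (X * Real.exp v) =
        ∑ i ∈ S, (c i : ℂ) * ((g v : ℂ) * ex (X * Real.exp v * θ i)) := by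
      intro v
      rw [Complex.real_smul, hPe v]
      unfold BB
      rw [mul_sum]
      refine sum_congr rfl fun i _ => ?_
      ring
    simp_rw [h2]
    have hE : ∀ i ∈ S, Integrable (fun v : ℝ => (c i : ℂ) * ((g v : ℂ) *
        ex (X * Real.exp v * θ i))) := fun i _ => by
      have h : Continuous fun v : ℝ => ex (X * Real.exp v * θ i) := excont.comp (by fun_prop)
      exact (tint hg _ h).const_mul _
    rw [integral_finsetSum _ hE]
    refine sum_congr rfl fun i _ => ?_
    rw [integral_const_mul]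
  rw [h1, norm_smul, Real.norm_of_nonneg hX.le]
  have h3 : ‖∑ i ∈ S, (c i : ℂ) * ∫ v, (g v : ℂ) * ex (X * Real.exp v * θ i)‖ ≤
      ∑ i ∈ S, |c i| * (C / (X * θ0) ^ 2) := by
    refine (norm_sum_le _ _).trans (sum_le_sum fun i hi => ?_)
    rw [norm_mul, Complex.norm_real, Real.norm_eq_abs]
    have h4 : 0 < θ i := lt_of_lt_of_le hθ0 (hθ i hi)
    have h5 := hC X (θ i) hX h4
    apply mul_le_mul_of_nonneg_left _ (abs_nonneg _)
    refine h5.trans ?_
    have := hθ i hi
    gcongr
  calc X * ‖∑ i ∈ S, (c i : ℂ) * ∫ v, (g v : ℂ) * ex (X * Real.exp v * θ i)‖ ≤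
      X * ∑ i ∈ S, |c i| * (C / (X * θ0) ^ 2) := by gcongr
    _ = _ := by
      rw [← sum_mul]
      field_simp

/-- the square of the exponential polynomial -/
lemma BB_sq {ι : Type} (S : Finset ι) (θ c : ι → ℝ) (y : ℝ) :
    BB S θ c y ^ 2 = BB (S ×ˢ S) (fun p => θ p.1 + θ p.2) (fun p => c p.1 * c p.2) y := by
  unfold BB
  rw [_root_.sq, sum_mul_sum, ← sum_product']
  refine sum_congr rfl fun p _ => ?_
  have e : ex (y * (θ p.1 + θ p.2)) = ex (y * θ p.1) * ex (y * θ p.2) := by
    unfold ex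
    rw [← Complex.exp_add]
    congr 1
    push_cast
    ring
  rw [e]
  push_cast
  ring

lemma ii_of {f : ℝ → ℝ} {a b C : ℝ} (hf : Measurable f) (hC : ∀ y ∈ Set.uIoc a b, |f y| ≤ C) :
    IntervalIntegrable f volume a b := by
  rw [intervalIntegrable_iff]
  refine Measure.integrableOn_of_bounded (M := C) (by
    rw [Set.uIoc]
    exact measure_Ioc_lt_top.ne) hf.aestronglyMeasurable ?_
  rw [ae_restrict_iff' measurableSet_uIoc]
  exact Filter.Eventually.of_forall fun y hy => by rw [Real.norm_eq_abs]; exact hC y hy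

/-- **duality** for the variance of primes in short intervals -/
theorem dual {B : ℝ} {ρ : ℝ → ℝ} (hρ : Test B ρ) (hρ0 : ∀ v, 0 ≤ v → ρ v = 0) (hB : 0 < B) :
    ∃ C : ℝ, 0 < C ∧ ∀ (X H : ℝ) (M : ℕ), 0 < X → 0 < H → 
    ∀ (ι : Type) (S : Finset ι) (θ c : ι → ℝ) (θ0 : ℝ), 0 < θ0 → (∀ i ∈ S, θ0 ≤ θ i) →
    4 * (∑ n ∈ Icc 1 M, (ArithmeticFunction.vonMangoldt n : ℂ) *
        (ρ (Real.log (n / X)) : ℂ) * ∑ i ∈ S, ((c i * sg H (θ i) : ℝ) : ℂ) * ex (n * θ i)).re -
      2 * (X * ∫ v, Real.exp v * ρ v ^ 2 * ‖∑ i ∈ S, (c i : ℂ) * ex (X * Real.exp v * θ i)‖ ^ 2) -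
      C * (H ^ 2 / X * (∑ n ∈ Icc 1 M, ArithmeticFunction.vonMangoldt n) * ∑ i ∈ S, |c i| +
        H / (X * θ0 ^ 2) * (∑ i ∈ S, |c i|) + 1 / (X * θ0 ^ 2) * (∑ i ∈ S, |c i|) ^ 2) ≤
      ∫ y in (X * Real.exp (-B))..X, DD M H y ^ 2 := by
  obtain ⟨K, hK0, hK⟩ := rho_lip hρ
  -- test functions
  have hg1 : Test B (fun v => Real.exp v * ρ v) := ⟨Real.contDiff_exp.mul hρ.smooth,
    fun v hv => by rw [hρ.supp v hv, mul_zero]⟩
  have hg2 : Test B (fun v => Real.exp v * ρ v ^ 2) := ⟨Real.contDiff_exp.mul (hρ.smooth.pow 2),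
    fun v hv => by rw [hρ.supp v hv]; ring⟩
  obtain ⟨C1, hC1, hosc1⟩ := osc hg1
  obtain ⟨C2, hC2, hosc2⟩ := osc hg2
  refine ⟨4 * K * Real.exp B + 4 * C1 + 2 * C2, by positivity, ?_⟩
  intro X H M hX hH ι S θ c θ0 hθ0 hθ
  set a := X * Real.exp (-B) with ha
  have ha0 : 0 < a := by positivity
  have haX : a ≤ X := by
    rw [ha]
    have : Real.exp (-B) ≤ 1 := Real.exp_le_one_iff.2 (by linarith)
    nlinarith
  have hθpos : ∀ i ∈ S, 0 < θ i := fun i hi => lt_of_lt_of_le hθ0 (hθ i hi)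
  set W : ℝ → ℝ := WW ρ a X with hW
  have hWl := WW_lip (B := B) hX hK0.le hK
  have hWc : Continuous W := by
    have : LipschitzWith (K / a).toNNReal (WW ρ a X) := by
      refine LipschitzWith.of_dist_le_mul fun y z => ?_
      rw [Real.dist_eq, Real.dist_eq, Real.coe_toNNReal _ (by positivity)]
      exact hWl y z
    exact this.continuous
  have hW1 : ∀ y, y ≤ a → W y = 0 := fun y hy => WW_low hρ hB hX hy
  have hW2 : ∀ y, X ≤ y → W y = 0 := fun y hy => WW_high hρ0 hX hy
  have hWe : ∀ v, W (X * Real.exp v) = ρ v := fun v => WW_exp hρ hB hX v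
  set b : ℝ → ℂ := BB S θ c with hb
  have hbc : Continuous b := BB_cont S θ c
  set F : ℝ → ℂ := fun y => (W y : ℂ) * b y with hF
  have hFc : Continuous F := by fun_prop
  set Sc := ∑ i ∈ S, |c i| with hSc
  have hSc0 : 0 ≤ Sc := sum_nonneg fun _ _ => abs_nonneg _
  set Ms := ∑ n ∈ Icc 1 M, ArithmeticFunction.vonMangoldt n with hMs
  -- pointwise
  have key : ∀ z : ℂ, ‖z‖ ^ 2 + (z ^ 2).re = 2 * z.re ^ 2 := by
    intro z
    rw [← Complex.normSq_eq_norm_sq, Complex.normSq_apply, _root_.sq z, Complex.mul_re]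
    ring
  have hpt : ∀ y, 4 * (DD M H y * (F y).re) - 2 * ‖F y‖ ^ 2 - 2 * (F y ^ 2).re ≤ DD M H y ^ 2 := by
    intro y
    have h1 := key (F y)
    nlinarith [sq_nonneg (DD M H y - 2 * (F y).re)]
  -- integrability
  have hDm := DD_meas M H
  obtain ⟨CF, hCF⟩ := (isCompact_Icc (a := a) (b := X)).exists_bound_of_continuousOn hFc.continuousOn
  have hsub : Set.uIoc a X ⊆ Set.Icc a X := by
    rw [Set.uIoc_of_le haX]; exact Set.Ioc_subset_Icc_self
  set DB := Ms + |H| with hDB
  have hDbd : ∀ y, |DD M H y| ≤ DB := DD_bound M H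
  have hDB0 : 0 ≤ DB := (abs_nonneg _).trans (hDbd 0)
  have hi1 : IntervalIntegrable (fun y => DD M H y ^ 2) volume a X := by
    refine ii_of (C := DB ^ 2) (hDm.pow_const 2) fun y _ => ?_
    rw [abs_pow]
    have := hDbd y
    gcongr
  have hi2 : IntervalIntegrable (fun y => DD M H y * (F y).re) volume a X := by
    refine ii_of (C := DB * CF) (hDm.mul (Complex.continuous_re.comp hFc).measurable) fun y hy => ?_
    rw [abs_mul]
    have h1 := hDbd y
    have h2 := (Complex.abs_re_le_norm (F y)).trans (hCF y (hsub hy))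
    have h3 : 0 ≤ CF := (norm_nonneg _).trans (hCF y (hsub hy))
    gcongr
  have hi3 : IntervalIntegrable (fun y => ‖F y‖ ^ 2) volume a X :=
    (hFc.norm.pow 2).intervalIntegrable _ _
  have hi4 : IntervalIntegrable (fun y => (F y ^ 2).re) volume a X :=
    (Complex.continuous_re.comp (hFc.pow 2)).intervalIntegrable _ _
  have hint := intervalIntegral.integral_mono_on haX
    (((hi2.const_mul 4).sub (hi3.const_mul 2)).sub (hi4.const_mul 2)) hi1 (fun y _ => hpt y)
  rw [intervalIntegral.integral_sub ((hi2.const_mul 4).sub (hi3.const_mul 2)) (hi4.const_mul 2),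
    intervalIntegral.integral_sub (hi2.const_mul 4) (hi3.const_mul 2),
    intervalIntegral.integral_const_mul, intervalIntegral.integral_const_mul,
    intervalIntegral.integral_const_mul] at hint
  -- the norm
  have hnorm : ∫ y in a..X, ‖F y‖ ^ 2 = X * ∫ v, Real.exp v * ρ v ^ 2 *
      ‖∑ i ∈ S, (c i : ℂ) * ex (X * Real.exp v * θ i)‖ ^ 2 := by
    rw [cov hB hX (fun y => ‖F y‖ ^ 2) (hFc.norm.pow 2)
      (fun y hy => by simp only [hF]; rw [hW1 y hy]; simp)
      (fun y hy => by simp only [hF]; rw [hW2 y hy]; simp), smul_eq_mul]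
    congr 2
    ext v
    simp only [hF, smul_eq_mul]
    rw [hWe, norm_mul, Complex.norm_real, Real.norm_eq_abs, mul_pow, sq_abs, ← mul_assoc]
    rfl
  -- the square
  have hsq : |∫ y in a..X, (F y ^ 2).re| ≤ C2 / (X * θ0 ^ 2) * Sc ^ 2 := by
    have h1 : ∫ y in a..X, (F y ^ 2).re = (∫ y in a..X, F y ^ 2).re := by
      have h2 : IntervalIntegrable (fun y => F y ^ 2) volume a X :=
        (hFc.pow 2).intervalIntegrable _ _
      have := Complex.reCLM.intervalIntegral_comp_comm h2
      exact this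
    rw [h1]
    refine (Complex.abs_re_le_norm _).trans ?_
    have h3 := int_F (S ×ˢ S) (fun p => θ p.1 + θ p.2) (fun p => c p.1 * c p.2) (P := fun y => F y ^ 2)
      hg2 hB hX (hFc.pow 2) (fun y hy => by simp only [hF]; rw [hW1 y hy]; simp)
      (fun y hy => by simp only [hF]; rw [hW2 y hy]; simp)
      (fun v => by
        simp only [hF]
        rw [hWe, mul_pow, hb, BB_sq]
        push_cast
        ring) hC2 hosc2 hθ0 (fun p hp => by
        rw [mem_product] at hp
        have h4 := hθ p.1 hp.1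
        have h5 := hθpos p.2 hp.2
        linarith)
    refine h3.trans (le_of_eq ?_)
    rw [_root_.sq Sc, hSc, sum_mul_sum, ← sum_product']
    congr 1
    refine sum_congr rfl fun p _ => ?_
    rw [abs_mul]
  -- the mean
  have hmean : ‖∫ y in a..X, F y‖ ≤ C1 / (X * θ0 ^ 2) * Sc := by
    refine int_F S θ c hg1 hB hX hFc (fun y hy => by simp only [hF]; rw [hW1 y hy]; simp)
      (fun y hy => by simp only [hF]; rw [hW2 y hy]; simp)
      (fun v => by
        simp only [hF]
        rw [hWe]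
        push_cast
        ring) hC1 hosc1 hθ0 hθ
  -- the mixed term
  have hmix : ∫ y in a..X, DD M H y * (F y).re =
      ∑ n ∈ Icc 1 M, ArithmeticFunction.vonMangoldt n *
        (∫ y in ((n : ℝ) - H / 2)..(n + H / 2), F y).re - H * (∫ y in a..X, F y).re := by
    have hFi : IntervalIntegrable (fun y => (F y).re) volume a X :=
      (Complex.continuous_re.comp hFc).intervalIntegrable _ _
    have h1 : ∀ n : ℕ, IntervalIntegrable (fun y =>
        (Set.Icc ((n : ℝ) - H / 2) (n + H / 2)).indicator (fun _ => (1 : ℝ)) y * (F y).re)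
        volume a X := by
      intro n
      refine ii_of (C := CF) ((measurable_const.indicator measurableSet_Icc).mul
        (Complex.continuous_re.comp hFc).measurable) fun y hy => ?_
      rw [abs_mul]
      have h2 := (Complex.abs_re_le_norm (F y)).trans (hCF y (hsub hy))
      have h3 : |(Set.Icc ((n : ℝ) - H / 2) (n + H / 2)).indicator (fun _ => (1 : ℝ)) y| ≤ 1 := by
        unfold Set.indicator
        split_ifs <;> simp
      calc _ ≤ 1 * CF := by gcongr
        _ = CF := one_mul _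
    have h2 : ∀ y, DD M H y * (F y).re = (∑ n ∈ Icc 1 M, ArithmeticFunction.vonMangoldt n *
        ((Set.Icc ((n : ℝ) - H / 2) (n + H / 2)).indicator (fun _ => (1 : ℝ)) y * (F y).re)) -
          H * (F y).re := by
      intro y
      unfold DD
      rw [sub_mul, sum_mul]
      congr 1
      refine sum_congr rfl fun n _ => ?_
      ring
    simp_rw [h2]
    have hsi : IntervalIntegrable (fun y => ∑ n ∈ Icc 1 M, ArithmeticFunction.vonMangoldt n *
        ((Set.Icc ((n : ℝ) - H / 2) (n + H / 2)).indicator (fun _ => (1 : ℝ)) y * (F y).re))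
        volume a X := by
      have h3 := IntervalIntegrable.sum (Icc 1 M) (f := fun (n : ℕ) (y : ℝ) =>
        ArithmeticFunction.vonMangoldt n *
        ((Set.Icc ((n : ℝ) - H / 2) (n + H / 2)).indicator (fun _ => (1 : ℝ)) y * (F y).re))
        (fun n _ => (h1 n).const_mul _)
      have h4 : (fun y => ∑ n ∈ Icc 1 M, ArithmeticFunction.vonMangoldt n *
          ((Set.Icc ((n : ℝ) - H / 2) (n + H / 2)).indicator (fun _ => (1 : ℝ)) y * (F y).re)) =
          ∑ n ∈ Icc 1 M, fun (y : ℝ) => ArithmeticFunction.vonMangoldt n *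
          ((Set.Icc ((n : ℝ) - H / 2) (n + H / 2)).indicator (fun _ => (1 : ℝ)) y * (F y).re) := by
        funext y
        rw [Finset.sum_apply]
      rw [h4]
      exact h3
    rw [intervalIntegral.integral_sub hsi
      (hFi.const_mul H), intervalIntegral.integral_finsetSum (fun n _ => (h1 n).const_mul _),
      intervalIntegral.integral_const_mul]
    congr 1
    · refine sum_congr rfl fun n _ => ?_
      rw [intervalIntegral.integral_const_mul]
      congr 1
      have hz : ∀ y, y ∉ Set.Ioc a X → F y = 0 := by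
        intro y hy
        rw [Set.mem_Ioc, not_and_or, not_lt, not_le] at hy
        simp only [hF]
        rcases hy with hy | hy
        · rw [hW1 y hy]; simp
        · rw [hW2 y hy.le]; simp
      have h3 : ∫ y in ((n : ℝ) - H / 2)..(n + H / 2), F y =
          ∫ y, (Set.Icc ((n : ℝ) - H / 2) (n + H / 2)).indicator F y := by
        rw [intervalIntegral.integral_of_le (by linarith), ← integral_Icc_eq_integral_Ioc,
          integral_indicator measurableSet_Icc]
      have h4 : (∫ y in ((n : ℝ) - H / 2)..(n + H / 2), F y).re =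
          ∫ y in ((n : ℝ) - H / 2)..(n + H / 2), (F y).re := by
        have h5 : IntervalIntegrable F volume ((n : ℝ) - H / 2) (n + H / 2) :=
          hFc.intervalIntegrable _ _
        exact (Complex.reCLM.intervalIntegral_comp_comm h5).symm
      rw [h4, intervalIntegral.integral_of_le haX,
        intervalIntegral.integral_of_le (by linarith : (n : ℝ) - H / 2 ≤ n + H / 2),
        ← integral_Icc_eq_integral_Ioc (x := (n : ℝ) - H / 2), ← integral_indicator measurableSet_Icc,
        setIntegral_eq_integral_of_forall_compl_eq_zero]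
      · congr 1
        ext y
        by_cases hy : y ∈ Set.Icc ((n : ℝ) - H / 2) (n + H / 2)
        · rw [Set.indicator_of_mem hy, Set.indicator_of_mem hy, one_mul]
        · rw [Set.indicator_of_notMem hy, Set.indicator_of_notMem hy, zero_mul]
      · intro y hy
        rw [hz y hy]
        simp
    · congr 1
      exact Complex.reCLM.intervalIntegral_comp_comm (hFc.intervalIntegrable _ _)
  -- the primes
  have hpr : (∑ n ∈ Icc 1 M, (ArithmeticFunction.vonMangoldt n : ℂ) *
        (ρ (Real.log (n / X)) : ℂ) * ∑ i ∈ S, ((c i * sg H (θ i) : ℝ) : ℂ) * ex (n * θ i)).re -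
      Ms * (K / a * H ^ 2 * Sc) ≤ ∑ n ∈ Icc 1 M, ArithmeticFunction.vonMangoldt n *
        (∫ y in ((n : ℝ) - H / 2)..(n + H / 2), F y).re := by
    rw [Complex.re_sum, hMs, sum_mul, ← sum_sub_distrib]
    refine sum_le_sum fun n hn => ?_
    rw [mem_Icc] at hn
    have hn0 : (0 : ℝ) < n := by exact_mod_cast hn.1
    have h1 := one_prime (B := B) (X := X) (ρ := ρ) S θ c hθpos hX hK0.le hK H hH n
    rw [WW_log hρ hB hX hn0] at h1
    have h2 := (Complex.abs_re_le_norm _).trans h1
    rw [Complex.sub_re] at h2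
    have h3 := (abs_le.1 h2).1
    rw [mul_assoc, Complex.re_ofReal_mul, ← mul_sub]
    apply mul_le_mul_of_nonneg_left _ ArithmeticFunction.vonMangoldt_nonneg
    linarith
  have hre := (abs_le.1 ((Complex.abs_re_le_norm _).trans hmean)).2
  have hsq2 := (abs_le.1 hsq).2
  rw [hmix, hnorm] at hint
  have hHre : H * (∫ y in a..X, F y).re ≤ H * (C1 / (X * θ0 ^ 2) * Sc) := by gcongr
  refine le_trans ?_ hint
  have hea : K / a = K * Real.exp B / X := by
    rw [ha, Real.exp_neg]
    field_simp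
  rw [hea] at hpr
  have hMs0 : 0 ≤ Ms := sum_nonneg fun _ _ => ArithmeticFunction.vonMangoldt_nonneg
  set E1 := H ^ 2 / X * Ms * Sc with hE1
  set E2 := H / (X * θ0 ^ 2) * Sc with hE2
  set E3 := 1 / (X * θ0 ^ 2) * Sc ^ 2 with hE3
  have hE10 : 0 ≤ E1 := by positivity
  have hE20 : 0 ≤ E2 := by positivity
  have hE30 : 0 ≤ E3 := by positivity
  have e1 : Ms * (K * Real.exp B / X * H ^ 2 * Sc) = K * Real.exp B * E1 := by
    rw [hE1]; ring
  have e2 : H * (C1 / (X * θ0 ^ 2) * Sc) = C1 * E2 := by rw [hE2]; ring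
  have e3 : C2 / (X * θ0 ^ 2) * Sc ^ 2 = C2 * E3 := by rw [hE3]; ring
  rw [e1] at hpr
  rw [e2] at hHre
  rw [e3] at hsq2
  have p1 : 0 ≤ K * Real.exp B * E2 := by positivity
  have p2 : 0 ≤ K * Real.exp B * E3 := by positivity
  have p3 : 0 ≤ C1 * E1 := by positivity
  have p4 : 0 ≤ C1 * E3 := by positivity
  have p5 : 0 ≤ C2 * E1 := by positivity
  have p6 : 0 ≤ C2 * E2 := by positivity
  linarith

end H321VP
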