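import Pool.Agent.H321R3.VP.Dual
import Pool.Agent.H321R3.VP.Cut
import Pool.Agent.H321R3.VP.Bump
import Pool.Agent.H343R2.PS2

/-! A lower bound for the variance of primes in short intervals. -/

open Finset MeasureTheory Filter Topology

namespace H321VP

open H343
open H343.PSide (cc SS sum_SS abs_moebius_le)

/-- the weighted number of prime powers in the interval of length `H` centred at `x` -/
noncomputable def psi (x H : ℝ) : ℝ :=
  ∑ᶠ n ∈ {n : ℕ | 1 ≤ n ∧ x - H / 2 ≤ n ∧ (n : ℝ) ≤ x + H / 2}, ArithmeticFunction.vonMangoldt n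

lemma psi_eq {x H : ℝ} {M : ℕ} (hM : x + H / 2 ≤ M) : psi x H - H = DD M H x := by
  classical
  unfold psi DD
  congr 1
  have h1 : {n : ℕ | 1 ≤ n ∧ x - H / 2 ≤ n ∧ (n : ℝ) ≤ x + H / 2} =
      ↑((Icc 1 M).filter (fun n : ℕ => x - H / 2 ≤ n ∧ (n : ℝ) ≤ x + H / 2)) := by
    ext n
    simp only [Set.mem_ofPred_eq, Finset.coe_filter, mem_Icc]
    constructor
    · rintro ⟨h1, h2, h3⟩
      refine ⟨⟨h1, ?_⟩, h2, h3⟩
      exact_mod_cast h3.trans hM
    · rintro ⟨⟨h1, -⟩, h2, h3⟩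
      exact ⟨h1, h2, h3⟩
  rw [h1, finsum_mem_coe_finset, sum_filter]
  refine sum_congr rfl fun n _ => ?_
  by_cases h : x - H / 2 ≤ n ∧ (n : ℝ) ≤ x + H / 2
  · rw [if_pos h, Set.indicator_of_mem, mul_one]
    exact ⟨by linarith [h.2], by linarith [h.1]⟩
  · rw [if_neg h, Set.indicator_of_notMem, mul_zero]
    intro h2
    exact h ⟨by linarith [h2.2], by linarith [h2.1]⟩

lemma SS_range {l : ℝ → ℝ} {B Y : ℝ} (hl : Test B l) (hY : 0 < Y) {Q R N : ℕ} {p : ℕ × ℕ}
    (hp : p ∈ SS l Y Q R N) : 1 ≤ p.1 ∧ p.1 ≤ R ∧ 1 ≤ p.2 ∧ (p.2 : ℝ) ≤ Real.exp B * p.1 * Y ∧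
      Real.exp (-B) * p.1 * Y ≤ p.2 := by
  rw [PSide.SS, mem_filter, mem_product, H343.Mod, mem_filter, mem_Ioc, mem_Icc] at hp
  obtain ⟨⟨⟨⟨h1, h2⟩, -⟩, h3, -⟩, -, h4⟩ := hp
  have hq0 : (0 : ℝ) < p.1 := by exact_mod_cast (by omega : 0 < p.1)
  have ha0 : (0 : ℝ) < p.2 := by exact_mod_cast h3
  have h5 : |Real.log (p.2 / (p.1 * Y))| < B := by
    by_contra h
    push Not at h
    exact h4 (hl.supp _ h)
  rw [abs_lt] at h5
  have h6 : Real.exp (Real.log (p.2 / (p.1 * Y))) = p.2 / (p.1 * Y) :=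
    Real.exp_log (by positivity)
  have h7 : (p.2 : ℝ) / (p.1 * Y) ≤ Real.exp B := by
    rw [← h6]; exact Real.exp_le_exp.2 h5.2.le
  have h8 : Real.exp (-B) ≤ (p.2 : ℝ) / (p.1 * Y) := by
    rw [← h6]; exact Real.exp_le_exp.2 h5.1.le
  rw [div_le_iff₀ (by positivity)] at h7
  rw [le_div_iff₀ (by positivity)] at h8
  exact ⟨by omega, h2, h3, by linarith, by linarith⟩

lemma cc_bound {l : ℝ → ℝ} {B Y : ℝ} (hl : Test B l) (hl1 : ∀ v, |l v| ≤ 1) (hY : 0 < Y)
    (Q R N : ℕ) : ∑ p ∈ SS l Y Q R N, |cc l Y p| ≤ R * (Real.exp B * R * Y) := by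
  classical
  have h1 : ∀ p ∈ SS l Y Q R N, |cc l Y p| ≤ 1 := by
    intro p hp
    obtain ⟨h1, h2, h3, h4, h5⟩ := SS_range hl hY hp
    unfold cc
    have hφ : (1 : ℝ) ≤ Nat.totient p.1 := by exact_mod_cast Nat.totient_pos.2 (by omega)
    rw [abs_mul, abs_div, abs_of_pos (by linarith : (0 : ℝ) < Nat.totient p.1)]
    calc |((ArithmeticFunction.moebius p.1 : ℤ) : ℝ)| / (Nat.totient p.1 : ℝ) *
          |l (Real.log (p.2 / (p.1 * Y)))| ≤ 1 * 1 := by
          have h6 := abs_moebius_le p.1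
          have h7 : |((ArithmeticFunction.moebius p.1 : ℤ) : ℝ)| / (Nat.totient p.1 : ℝ) ≤ 1 := by
            rw [div_le_one (by linarith)]; linarith
          have := hl1 (Real.log (p.2 / (p.1 * Y)))
          gcongr
      _ = 1 := one_mul 1
  have h2 : SS l Y Q R N ⊆ Icc 1 R ×ˢ Icc 1 ⌊Real.exp B * R * Y⌋₊ := by
    intro p hp
    obtain ⟨h1, h2, h3, h4, h5⟩ := SS_range hl hY hp
    rw [mem_product, mem_Icc, mem_Icc]
    refine ⟨⟨h1, h2⟩, h3, Nat.le_floor (h4.trans ?_)⟩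
    have : (p.1 : ℝ) ≤ R := by exact_mod_cast h2
    gcongr
  calc ∑ p ∈ SS l Y Q R N, |cc l Y p| ≤ ∑ p ∈ SS l Y Q R N, (1 : ℝ) := sum_le_sum h1
    _ ≤ ∑ p ∈ Icc 1 R ×ˢ Icc 1 ⌊Real.exp B * R * Y⌋₊, (1 : ℝ) :=
        sum_le_sum_of_subset_of_nonneg h2 fun _ _ _ => zero_le_one
    _ = R * (⌊Real.exp B * R * Y⌋₊ : ℕ) := by
        rw [sum_const, card_product, Nat.card_Icc, Nat.card_Icc, nsmul_eq_mul]
        simp
    _ ≤ _ := by
        have := Nat.floor_le (show 0 ≤ Real.exp B * R * Y by positivity)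
        gcongr

/-- real arithmetic of the main estimate -/
lemma arith (H T X L η ε0 A A2 L2 L11 LLq MS NS Er J lx : ℝ) (hT : 0 < T) (hH : 0 < H)
    (hX : X = H * T) (hη : 0 < η) (hη1 : η ≤ 1 / 10) (hA : 1 - η ≤ A)
    (hA2 : A2 ≤ A) (hL2 : 1 / 2 - η ≤ L2) (hL11 : L11 ≤ L2)
    (hL110 : 0 ≤ L11) (hLL : 3 / 2 * L - lx - 6 * ε0 * L ≤ LLq)
    (ha0 : 0 ≤ 3 / 2 * L - lx - 6 * ε0 * L) (hLlx : L ≤ lx) (hL0 : 0 ≤ L) (hε0 : 0 ≤ ε0)
    (hMS : T * A * L2 * LLq - η * T * L ≤ MS) (hNS : NS ≤ T * A2 * L11 * LLq + η * T * L)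
    (hEr : Er ≤ η * (H * X) * lx) (hJ : 4 * (H ^ 2 * MS) - 2 * (H ^ 2 * NS) - Er ≤ J) :
    H * X * (3 / 2 * L - lx - (6 * ε0 + 9 * η) * lx) ≤ J := by
  have hLL0 : 0 ≤ LLq := ha0.trans hLL
  have hA0 : 0 ≤ A := by linarith
  have hL20 : 0 ≤ L2 := by linarith
  have hHX : H * X = H ^ 2 * T := by rw [hX]; ring
  have hH2T : 0 < H ^ 2 * T := by positivity
  have h1 : A2 * L11 ≤ A * L2 := mul_le_mul hA2 hL11 hL110 hA0
  have h2 : 1 - 3 * η ≤ 2 * (A * L2) := by nlinarith
  have h3 : A2 * L11 * LLq ≤ A * L2 * LLq := mul_le_mul_of_nonneg_right h1 hLL0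
  have h4 : (1 - 3 * η) * LLq ≤ 2 * (A * L2) * LLq := mul_le_mul_of_nonneg_right h2 hLL0
  have h5 : (1 - 3 * η) * (3 / 2 * L - lx - 6 * ε0 * L) ≤ (1 - 3 * η) * LLq :=
    mul_le_mul_of_nonneg_left hLL (by linarith)
  have h6 : 3 / 2 * L - lx - 6 * ε0 * L ≤ 1 / 2 * lx := by nlinarith
  have h7 : 3 / 2 * L - lx - 6 * ε0 * L - 3 * η * (1 / 2 * lx) ≤ 2 * (A * L2) * LLq := by
    have h8 : 3 * η * (3 / 2 * L - lx - 6 * ε0 * L) ≤ 3 * η * (1 / 2 * lx) := by gcongr
    nlinarith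
  have h9 : 4 * MS - 2 * NS ≥ T * (2 * (A * L2) * LLq) - 6 * η * T * L := by
    have h10 : T * (A2 * L11 * LLq) ≤ T * (A * L2 * LLq) := by gcongr
    nlinarith
  have h11 : T * (3 / 2 * L - lx - 6 * ε0 * L - 3 * η * (1 / 2 * lx)) - 6 * η * T * L ≤
      4 * MS - 2 * NS := by
    have : T * (3 / 2 * L - lx - 6 * ε0 * L - 3 * η * (1 / 2 * lx)) ≤
        T * (2 * (A * L2) * LLq) := by gcongr
    linarith
  have h12 : T * (3 / 2 * L - lx - 6 * ε0 * lx - 3 * η * (1 / 2 * lx) - 6 * η * lx) ≤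
      4 * MS - 2 * NS := by
    have h13 : T * (6 * ε0 * L) ≤ T * (6 * ε0 * lx) := by gcongr
    have h14 : 6 * η * T * L ≤ 6 * η * T * lx := by gcongr
    nlinarith
  have h15 : H ^ 2 * (T * (3 / 2 * L - lx - 6 * ε0 * lx - 3 * η * (1 / 2 * lx) - 6 * η * lx)) ≤
      H ^ 2 * (4 * MS - 2 * NS) := by gcongr
  have hlx0 : 0 ≤ lx := hL0.trans hLlx
  have h16 : 0 ≤ η * (H ^ 2 * T) * lx := by positivity
  rw [hHX] at hEr ⊢
  nlinarith

lemma sq_le_self' {x : ℝ} (h0 : 0 ≤ x) (h1 : x ≤ 1) : x ^ 2 ≤ x := by nlinarith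

theorem var_lower (ε : ℝ) (hε : 0 < ε) (hε1 : ε ≤ 1) : ∃ X₀ : ℝ, 1 ≤ X₀ ∧ ∀ X H : ℝ, X₀ ≤ X →
    1 ≤ H → H ≤ X ^ (1 / 3 : ℝ) →
    H * X * (1 / 2 * Real.log X - 3 / 2 * Real.log H - ε * Real.log X) ≤
      ∫ x in (1 : ℝ)..X, (psi x H - H) ^ 2 := by
  classical
  set η : ℝ := ε / 100 with hη
  have hη0 : 0 < η := by positivity
  have hη1 : η ≤ 1 / 10 := by rw [hη]; linarith
  set ε0 : ℝ := ε / 200 with hε0
  have hε00 : 0 < ε0 := by positivity
  have hε01 : ε0 ≤ 1 / 100 := by rw [hε0]; linarith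
  obtain ⟨B, ρ, lam, hB1, hρ, hlam, hρ01, hlam01, hρ0, hρm, hlm⟩ := tests η hη0 (by linarith)
  have hB : 0 < B := by linarith
  set l1 : ℝ → ℝ := fun v => lam v * sn v with hl1def
  set l2 : ℝ → ℝ := fun v => lam v * sn v ^ 2 with hl2def
  have hl1 : Test B l1 := ⟨hlam.smooth.mul sn_smooth, fun v hv => by
    rw [hl1def]; simp only; rw [hlam.supp v hv, zero_mul]⟩
  have hl2 : Test B l2 := ⟨hlam.smooth.mul (sn_smooth.pow 2), fun v hv => by
    rw [hl2def]; simp only; rw [hlam.supp v hv, zero_mul]⟩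
  have hl1le : ∀ v, |l1 v| ≤ 1 := by
    intro v
    rw [hl1def]
    simp only
    rw [abs_mul, abs_of_nonneg (hlam01 v).1]
    exact mul_le_one₀ (hlam01 v).2 (abs_nonneg _) (sn_abs v)
  obtain ⟨C, hC, hdual⟩ := dual hρ hρ0 hB
  obtain ⟨H1, hmain⟩ := main_sum hρ hl2 ε0 η hε00 hε01 hη0
  obtain ⟨H2, hnorm⟩ := norm_sum hρ hl1 ε0 η hε00 hε01 hη0
  obtain ⟨t0, ht01, hcut⟩ := cuts ε0 B hε00 hε01
  -- integrals of the test functions
  set A := ∫ v, ρ v * Real.exp v with hA
  set A2 := ∫ v, ρ v ^ 2 * Real.exp v with hA2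
  set L2 := ∫ v, l2 v * Real.exp v with hL2
  set L11 := ∫ v, l1 v ^ 2 * Real.exp v with hL11
  have hintr : ∀ {f : ℝ → ℝ}, Test B f → Integrable fun v => f v * Real.exp v := by
    intro f hf
    apply Continuous.integrable_of_hasCompactSupport
    · exact (tcont hf).mul Real.continuous_exp
    · exact (tsupp hf).mul_right
  have hA2A : A2 ≤ A := by
    refine integral_mono_of_nonneg (Filter.Eventually.of_forall fun v => by positivity)
      (hintr hρ) (Filter.Eventually.of_forall fun v => ?_)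
    have := sq_le_self' (hρ01 v).1 (hρ01 v).2
    exact mul_le_mul_of_nonneg_right this (Real.exp_pos v).le
  have hA20 : 0 ≤ A2 := integral_nonneg fun v => by positivity
  have hL110 : 0 ≤ L11 := integral_nonneg fun v => by positivity
  have hL11L2 : L11 ≤ L2 := by
    refine integral_mono_of_nonneg (Filter.Eventually.of_forall fun v => by positivity)
      (hintr hl2) (Filter.Eventually.of_forall fun v => ?_)
    have h1 := sq_le_self' (hlam01 v).1 (hlam01 v).2
    have h2 : l1 v ^ 2 ≤ l2 v := by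
      rw [hl1def, hl2def]
      simp only
      rw [mul_pow]
      exact mul_le_mul_of_nonneg_right h1 (sq_nonneg _)
    exact mul_le_mul_of_nonneg_right h2 (Real.exp_pos v).le
  have hL2m : 1 / 2 - η ≤ L2 := by
    refine hlm.trans (le_of_eq ?_)
    rw [hL2]
    congr 1
    ext v
    rw [hl2def]
    ring
  -- eventual facts
  set eB := Real.exp B with heB
  have heB1 : 1 ≤ eB := Real.one_le_exp hB.le
  set K : ℝ := 6 * C * eB ^ 4 / η + 1 with hK
  have hK0 : 0 < K := by positivity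
  have ev1 : ∀ᶠ X : ℝ in atTop, max (max H1 H2) (Real.exp t0) ≤ X ^ (2 / 3 : ℝ) :=
    (tendsto_rpow_atTop (by norm_num)).eventually_ge_atTop _
  have ev2 : ∀ᶠ X : ℝ in atTop, K ≤ (X ^ (2 / 3 : ℝ)) ^ (2 * ε0) :=
    ((tendsto_rpow_atTop (by positivity)).comp
      (tendsto_rpow_atTop (by norm_num))).eventually_ge_atTop _
  have ev3 : ∀ᶠ X : ℝ in atTop, max (max 1 (2 * eB)) (Real.exp 1) ≤ X := eventually_ge_atTop _
  obtain ⟨X1, hX1⟩ := ((ev1.and ev2).and ev3).exists_forall_of_atTop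
  refine ⟨max X1 1, le_max_right _ _, ?_⟩
  intro X H hX hH1 hHX
  obtain ⟨⟨e1, e2⟩, e3⟩ := hX1 X ((le_max_left _ _).trans hX)
  have hX1' : 1 ≤ X := (le_max_right _ _).trans hX
  have hX0 : 0 < X := by linarith
  have hH0 : 0 < H := by linarith
  have hXeB : 2 * eB ≤ X := ((le_max_right _ _).trans (le_max_left _ _)).trans e3
  have hXe : Real.exp 1 ≤ X := (le_max_right _ _).trans e3
  have hlx1 : 1 ≤ Real.log X := by
    rw [Real.le_log_iff_exp_le hX0]; exact hXe
  set Y : ℝ := 1 / H with hY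
  have hY0 : 0 < Y := by positivity
  have hY1 : Y ≤ 1 := by rw [hY, div_le_one hH0]; exact hH1
  set T : ℝ := X * Y with hT
  have hTX : X = H * T := by rw [hT, hY]; field_simp
  have hT23 : X ^ (2 / 3 : ℝ) ≤ T := by
    have h1 : X ^ (2 / 3 : ℝ) * X ^ (1 / 3 : ℝ) = X := by
      rw [← Real.rpow_add hX0]; norm_num
    have h2 : T = X / H := by rw [hT, hY]; ring
    rw [h2, le_div_iff₀ hH0]
    calc X ^ (2 / 3 : ℝ) * H ≤ X ^ (2 / 3 : ℝ) * X ^ (1 / 3 : ℝ) := by gcongr
      _ = X := h1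
  have hT0 : 0 < T := by positivity
  have hTe : Real.exp t0 ≤ T := ((le_max_right _ _).trans e1).trans hT23
  have hTH1 : H1 ≤ T := (((le_max_left _ _).trans (le_max_left _ _)).trans e1).trans hT23
  have hTH2 : H2 ≤ T := (((le_max_right _ _).trans (le_max_left _ _)).trans e1).trans hT23
  have hT1 : 1 ≤ T := by
    have : (1 : ℝ) ≤ Real.exp t0 := Real.one_le_exp (by linarith)
    linarith
  have hTleX : T ≤ X := by
    rw [hT]
    exact mul_le_of_le_one_right hX0.le hY1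
  set L := Real.log T with hL
  have hLt0 : t0 ≤ L := by rw [hL, Real.le_log_iff_exp_le hT0]; exact hTe
  have hL0 : 0 ≤ L := by linarith
  have hLlx : L ≤ Real.log X := Real.log_le_log hT0 hTleX
  have hlogH : Real.log H = Real.log X - L := by
    rw [hTX, Real.log_mul hH0.ne' hT0.ne']
    ring
  set lx := Real.log X with hlx
  have hlhs : 1 / 2 * lx - 3 / 2 * Real.log H - ε * lx = 3 / 2 * L - lx - ε * lx := by
    rw [hlogH]; ring
  rw [hlhs]
  rcases lt_or_ge lx ((3 / 2 - 100 * ε0) * L) with hcase | hcase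
  swap
  · -- trivial range
    have h1 : 3 / 2 * L - lx - ε * lx ≤ 0 := by
      have h2 : 100 * ε0 * L ≤ ε * lx := by
        have h2a : 100 * ε0 = ε / 2 := by rw [hε0]; ring
        have h2b : ε * L ≤ ε * lx := mul_le_mul_of_nonneg_left hLlx hε.le
        have h2c : 0 ≤ ε * L := mul_nonneg hε.le hL0
        rw [h2a]
        linarith
      linarith
    have h3 : 0 ≤ ∫ x in (1 : ℝ)..X, (psi x H - H) ^ 2 :=
      intervalIntegral.integral_nonneg hX1' fun x _ => sq_nonneg _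
    refine le_trans ?_ h3
    exact mul_nonpos_of_nonneg_of_nonpos (by positivity) h1
  · obtain ⟨hRange, Q, R, N, M, hCuts, hMle, hLL⟩ := hcut X Y hX0 hY0 hY1 hLt0 hT1 hcase
    have hm := hmain X Y hRange hTH1 Q R N M hCuts
    have hn := hnorm X Y hRange hTH2 Q R N M hCuts
    rw [← hT] at hm hn hLL
    rw [← hL] at hm hn hLL
    have hM1 : eB * X ≤ M := hCuts.hM
    -- the exponential polynomial
    set S := SS l1 Y Q R N with hS
    set θ : ℕ × ℕ → ℝ := fun i => (i.2 : ℝ) / i.1 with hθdef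
    set c : ℕ × ℕ → ℝ := fun i => H * cc l1 Y i with hcdef
    set θ0 : ℝ := Real.exp (-B) / H with hθ0
    have hθ00 : 0 < θ0 := by positivity
    have hθ : ∀ i ∈ S, θ0 ≤ θ i := by
      intro i hi
      obtain ⟨h1, h2, h3, h4, h5⟩ := SS_range hl1 hY0 hi
      have h6 : (0 : ℝ) < i.1 := by exact_mod_cast h1
      rw [hθdef]
      simp only
      rw [le_div_iff₀ h6, hθ0]
      calc Real.exp (-B) / H * i.1 = Real.exp (-B) * i.1 * Y := by rw [hY]; ring
        _ ≤ _ := h5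
    have hd := hdual X H M hX0 hH0 (ℕ × ℕ) S θ c θ0 hθ00 hθ
    -- the first sum
    set MS : ℂ := ∑ q ∈ Mod Q R, ∑ a ∈ (Icc 1 N).filter (fun a => a.Coprime q),
        (((ArithmeticFunction.moebius q : ℤ) : ℝ) / (Nat.totient q : ℝ)
          * l2 (Real.log (a / (q * Y))) : ℝ) *
        ∑ n ∈ Icc 1 M, ((ArithmeticFunction.vonMangoldt n * ρ (Real.log (n / X)) : ℝ) : ℂ) *
          ex (n * (a / q)) with hMS
    have hSS : SS l2 Y Q R N = S := by
      rw [hS]
      unfold PSide.SS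
      apply filter_congr
      intro p _
      rw [hl1def, hl2def]
      simp only [ne_eq, mul_eq_zero, pow_eq_zero_iff, OfNat.ofNat_ne_zero, not_false_eq_true]
    have hsum1 : ∑ n ∈ Icc 1 M, (ArithmeticFunction.vonMangoldt n : ℂ) *
        (ρ (Real.log (n / X)) : ℂ) * ∑ i ∈ S, ((c i * sg H (θ i) : ℝ) : ℂ) * ex (n * θ i) =
        ((H ^ 2 : ℝ) : ℂ) * MS := by
      have h3 := sum_SS l2 Y Q R N (fun p => ∑ n ∈ Icc 1 M,
        ((ArithmeticFunction.vonMangoldt n * ρ (Real.log (n / X)) : ℝ) : ℂ) * ex (n * (p.2 / p.1)))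
      rw [hMS, ← h3, hSS]
      simp_rw [mul_sum]
      rw [sum_comm]
      apply sum_congr rfl
      intro p hp
      apply sum_congr rfl
      intro n _
      obtain ⟨h1, h2, h4, h5, h6⟩ := SS_range hl1 hY0 hp
      have h7 : (0 : ℝ) < p.1 := by exact_mod_cast h1
      have h8 : (0 : ℝ) < p.2 := by exact_mod_cast h4
      have h9 : c p * sg H (θ p) = H ^ 2 * cc l2 Y p := by
        rw [hcdef, hθdef]
        simp only
        unfold sg PSide.cc
        rw [hl1def, hl2def]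
        simp only
        unfold sn
        have h10 : Real.exp (Real.log ((p.2 : ℝ) / (p.1 * Y))) = p.2 / (p.1 * Y) :=
          Real.exp_log (by positivity)
        rw [h10]
        have h11 : (p.2 : ℝ) / (p.1 * Y) = H * (p.2 / p.1) := by
          rw [hY]; field_simp
        rw [h11]
        have h12 : Real.pi * H * ((p.2 : ℝ) / p.1) = Real.pi * (H * (p.2 / p.1)) := by ring
        rw [h12]
        have hpi := Real.pi_pos
        field_simp
      rw [h9, hθdef]
      push_cast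
      ring
    rw [hsum1, Complex.re_ofReal_mul] at hd
    -- the norm
    set NS : ℝ := X * ∫ v, Real.exp v * ρ v ^ 2 * ‖∑ q ∈ Mod Q R,
      ∑ a ∈ (Icc 1 N).filter (fun a => a.Coprime q),
        (((ArithmeticFunction.moebius q : ℤ) : ℝ) / (Nat.totient q : ℝ)
          * l1 (Real.log (a / (q * Y))) : ℝ) * ex (X * Real.exp v * (a / q))‖ ^ 2 with hNS
    have hsum2 : X * ∫ v, Real.exp v * ρ v ^ 2 *
        ‖∑ i ∈ S, (c i : ℂ) * ex (X * Real.exp v * θ i)‖ ^ 2 = H ^ 2 * NS := by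
      have h4 : ∀ v : ℝ, Real.exp v * ρ v ^ 2 *
          ‖∑ i ∈ S, (c i : ℂ) * ex (X * Real.exp v * θ i)‖ ^ 2 =
          H ^ 2 * (Real.exp v * ρ v ^ 2 * ‖∑ q ∈ Mod Q R,
          ∑ a ∈ (Icc 1 N).filter (fun a => a.Coprime q),
          (((ArithmeticFunction.moebius q : ℤ) : ℝ) / (Nat.totient q : ℝ)
          * l1 (Real.log (a / (q * Y))) : ℝ) * ex (X * Real.exp v * (a / q))‖ ^ 2) := by
        intro v
        have h3 := sum_SS l1 Y Q R N (fun p => ex (X * Real.exp v * (p.2 / p.1)))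
        rw [← h3]
        have h5 : ∑ i ∈ S, (c i : ℂ) * ex (X * Real.exp v * θ i) =
            (H : ℂ) * ∑ p ∈ S, (cc l1 Y p : ℂ) * ex (X * Real.exp v * (p.2 / p.1)) := by
          rw [mul_sum]
          refine sum_congr rfl fun i _ => ?_
          rw [hcdef, hθdef]
          push_cast
          ring
        rw [h5, norm_mul, Complex.norm_real, Real.norm_of_nonneg hH0.le]
        ring
      simp_rw [h4]
      rw [integral_const_mul, hNS]
      ring
    rw [hsum2] at hd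
    -- the errors
    set Sc := ∑ i ∈ S, |c i| with hSc
    set Ms := ∑ n ∈ Icc 1 M, ArithmeticFunction.vonMangoldt n with hMs
    set P : ℝ := T ^ (-(2 * ε0)) with hP
    have hP0 : 0 < P := Real.rpow_pos_of_pos hT0 _
    have hP1 : P ≤ 1 := by
      rw [hP]
      exact Real.rpow_le_one_of_one_le_of_nonpos hT1 (by linarith)
    have hPK : K * P ≤ 1 := by
      have h1 : K ≤ T ^ (2 * ε0) := by
        refine e2.trans ?_
        gcongr
      calc K * P ≤ T ^ (2 * ε0) * P := by gcongr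
        _ = 1 := by
          rw [hP, ← Real.rpow_add hT0]
          simp
    have hR2 : (R : ℝ) ^ 2 ≤ T * P := by
      calc (R : ℝ) ^ 2 ≤ (T ^ (1 / 2 - ε0)) ^ 2 := by
            have := hCuts.hR
            gcongr
        _ = T * P := by
          rw [hP, ← Real.rpow_natCast, ← Real.rpow_mul hT0.le]
          nth_rw 2 [← Real.rpow_one T]
          rw [← Real.rpow_add hT0]
          congr 1
          push_cast
          ring
    have hScle : Sc ≤ eB * (T * P) := by
      have h1 : Sc = H * ∑ p ∈ S, |cc l1 Y p| := by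
        rw [hSc, mul_sum]
        refine sum_congr rfl fun i _ => ?_
        rw [hcdef]
        simp only
        rw [abs_mul, abs_of_pos hH0]
      rw [h1]
      calc H * ∑ p ∈ S, |cc l1 Y p| ≤ H * (R * (eB * R * Y)) := by
            have := cc_bound hl1 hl1le hY0 Q R N
            gcongr
        _ = eB * (R : ℝ) ^ 2 := by rw [hY]; field_simp
        _ ≤ _ := by gcongr
    have hSc0 : 0 ≤ Sc := sum_nonneg fun _ _ => abs_nonneg _
    have hMX : (M : ℝ) ≤ 2 * eB * X := by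
      have : 1 ≤ eB * X := one_le_mul_of_one_le_of_one_le heB1 hX1'
      linarith
    have hMpos : (0 : ℝ) < M := by
      have : 0 < eB * X := by positivity
      linarith
    have hlogM : Real.log M ≤ 2 * lx := by
      calc Real.log M ≤ Real.log (X * X) := by
            apply Real.log_le_log hMpos
            refine hMX.trans ?_
            gcongr
        _ = 2 * lx := by rw [Real.log_mul hX0.ne' hX0.ne']; ring
    have hMsle : Ms ≤ 4 * eB * X * lx := by
      calc Ms ≤ ∑ n ∈ Icc 1 M, Real.log M := by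
            refine sum_le_sum fun n hn => ?_
            rw [mem_Icc] at hn
            refine ArithmeticFunction.vonMangoldt_le_log.trans ?_
            apply Real.log_le_log (by exact_mod_cast hn.1)
            exact_mod_cast hn.2
        _ = M * Real.log M := by rw [sum_const, Nat.card_Icc, nsmul_eq_mul]; simp
        _ ≤ (2 * eB * X) * (2 * lx) := by
            have : 0 ≤ Real.log M := Real.log_nonneg (by exact_mod_cast (by
              have : 0 < M := by exact_mod_cast hMpos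
              omega : 1 ≤ M))
            gcongr
        _ = _ := by ring
    have hMs0 : 0 ≤ Ms := sum_nonneg fun _ _ => ArithmeticFunction.vonMangoldt_nonneg
    have hXθ : 1 / (X * θ0 ^ 2) = H * eB ^ 2 / T := by
      have h1 : Real.exp (-B) = 1 / eB := by rw [Real.exp_neg, one_div]
      rw [hθ0, h1, hTX]
      field_simp
    have hE1 : H ^ 2 / X * Ms * Sc ≤ 4 * eB ^ 2 * (H * X * lx) * P := by
      calc H ^ 2 / X * Ms * Sc ≤ H ^ 2 / X * (4 * eB * X * lx) * (eB * (T * P)) := by gcongr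
        _ = 4 * eB ^ 2 * (H * (H * T) * lx) * P := by field_simp
        _ = _ := by rw [← hTX]
    have hHleX : H ≤ X := by
      rw [hTX]
      exact le_mul_of_one_le_right hH0.le hT1
    have hE2 : H / (X * θ0 ^ 2) * Sc ≤ eB ^ 3 * (H * X * lx) * P := by
      have h1 : H / (X * θ0 ^ 2) = H * (H * eB ^ 2 / T) := by rw [← hXθ]; ring
      rw [h1]
      calc H * (H * eB ^ 2 / T) * Sc ≤ H * (H * eB ^ 2 / T) * (eB * (T * P)) := by gcongr
        _ = eB ^ 3 * (H * H * 1) * P := by field_simp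
        _ ≤ eB ^ 3 * (H * X * lx) * P := by gcongr
    have hE3 : 1 / (X * θ0 ^ 2) * Sc ^ 2 ≤ eB ^ 4 * (H * X * lx) * P := by
      rw [hXθ]
      calc H * eB ^ 2 / T * Sc ^ 2 ≤ H * eB ^ 2 / T * (eB * (T * P)) ^ 2 := by gcongr
        _ = eB ^ 4 * (H * T * 1) * (P * P) := by field_simp
        _ ≤ eB ^ 4 * (H * X * lx) * (P * 1) := by gcongr
        _ = _ := by ring
    have hEr : C * (H ^ 2 / X * Ms * Sc + H / (X * θ0 ^ 2) * Sc + 1 / (X * θ0 ^ 2) * Sc ^ 2) ≤
        η * (H * X) * lx := by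
      have hb2 : eB ^ 2 ≤ eB ^ 4 := pow_le_pow_right₀ heB1 (by norm_num)
      have hb3 : eB ^ 3 ≤ eB ^ 4 := pow_le_pow_right₀ heB1 (by norm_num)
      have hZ : 0 ≤ H * X * lx * P := by positivity
      have h1 : H ^ 2 / X * Ms * Sc + H / (X * θ0 ^ 2) * Sc + 1 / (X * θ0 ^ 2) * Sc ^ 2 ≤
          6 * eB ^ 4 * (H * X * lx * P) := by
        have q1 : eB ^ 2 * (H * X * lx * P) ≤ eB ^ 4 * (H * X * lx * P) := by gcongr
        have q2 : eB ^ 3 * (H * X * lx * P) ≤ eB ^ 4 * (H * X * lx * P) := by gcongr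
        linarith
      have h2 : 6 * C * eB ^ 4 * P ≤ η := by
        have h3 : (6 * C * eB ^ 4 / η + 1) * P ≤ 1 := hPK
        have h4 : 6 * C * eB ^ 4 / η * P ≤ 1 := by
          rw [add_mul, one_mul] at h3
          linarith
        rw [div_mul_eq_mul_div, div_le_one hη0] at h4
        exact h4
      calc C * (H ^ 2 / X * Ms * Sc + H / (X * θ0 ^ 2) * Sc + 1 / (X * θ0 ^ 2) * Sc ^ 2) ≤
          C * (6 * eB ^ 4 * (H * X * lx * P)) := by gcongr
        _ = (6 * C * eB ^ 4 * P) * (H * X * lx) := by ring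
        _ ≤ η * (H * X * lx) := by gcongr
        _ = _ := by ring
    -- real parts
    have hMSre : T * A * L2 * LL Q R - η * T * L ≤ MS.re := by
      have h3 := (Complex.abs_re_le_norm _).trans hm
      rw [Complex.sub_re, Complex.ofReal_re] at h3
      have := (abs_le.1 h3).1
      linarith
    have hcase2 : 0 ≤ 3 / 2 * L - lx - 6 * ε0 * L := by
      have : 0 ≤ ε0 * L := mul_nonneg hε00.le hL0
      linarith
    have har := arith H T X L η ε0 A A2 L2 L11 (LL Q R) MS.re NS _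
      (∫ y in (X * Real.exp (-B))..X, DD M H y ^ 2) lx hT0 hH0 hTX hη0 hη1 hρm hA2A hL2m hL11L2
      hL110 hLL hcase2 hLlx hL0 hε00.le hMSre hn hEr hd
    -- back to `psi`
    have hcoef : 3 / 2 * L - lx - ε * lx ≤ 3 / 2 * L - lx - (6 * ε0 + 9 * η) * lx := by
      have : (6 * ε0 + 9 * η) * lx ≤ ε * lx := by
        apply mul_le_mul_of_nonneg_right _ (by linarith)
        rw [hε0, hη]
        linarith
      linarith
    have hfin1 : H * X * (3 / 2 * L - lx - ε * lx) ≤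
        ∫ y in (X * Real.exp (-B))..X, DD M H y ^ 2 := by
      refine le_trans ?_ har
      exact mul_le_mul_of_nonneg_left hcoef (by positivity)
    refine hfin1.trans ?_
    have ha1 : 1 ≤ X * Real.exp (-B) := by
      have h1 : Real.exp (-B) = 1 / eB := by rw [Real.exp_neg, one_div]
      rw [h1, ← mul_div_assoc, mul_one, le_div_iff₀ (by positivity)]
      linarith
    have haX : X * Real.exp (-B) ≤ X := by
      have : Real.exp (-B) ≤ 1 := Real.exp_le_one_iff.2 (by linarith)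
      exact mul_le_of_le_one_right hX0.le this
    have hpsi : ∫ x in (1 : ℝ)..X, (psi x H - H) ^ 2 = ∫ x in (1 : ℝ)..X, DD M H x ^ 2 := by
      refine intervalIntegral.integral_congr fun x hx => ?_
      rw [Set.uIcc_of_le hX1'] at hx
      have h1 : x + H / 2 ≤ M := by
        have : 2 * X ≤ M := by
          have h2 : 2 ≤ eB := by
            have h3 : Real.exp 1 ≤ eB := Real.exp_le_exp.2 hB1
            have := Real.exp_one_gt_d9
            linarith
          calc 2 * X ≤ eB * X := by gcongr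
            _ ≤ M := hM1
        linarith [hx.2]
      rw [psi_eq h1]
    rw [hpsi]
    refine intervalIntegral.integral_mono_interval ha1 haX le_rfl
      (Filter.Eventually.of_forall fun x => sq_nonneg _) ?_
    refine ii_of (C := (Ms + |H|) ^ 2) ((DD_meas M H).pow_const 2) fun y _ => ?_
    rw [abs_pow]
    have := DD_bound M H y
    gcongr

end H321VP
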