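import Pool.Agent.H343R2.NormA

/-! Oscillatory integrals, two integrations by parts. -/

open Finset MeasureTheory

namespace H321VP

open H343

lemma tcont {B : ℝ} {f : ℝ → ℝ} (hf : Test B f) : Continuous f := hf.smooth.continuous

lemma tsupp {B : ℝ} {f : ℝ → ℝ} (hf : Test B f) : HasCompactSupport f := by
  apply HasCompactSupport.intro (isCompact_Icc : IsCompact (Set.Icc (-B) B))
  intro v hv
  apply hf.supp
  by_contra h
  push Not at h
  rw [abs_lt] at h
  exact hv (Set.mem_Icc.mpr ⟨by linarith [h.1], by linarith [h.2]⟩)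

lemma tint {B : ℝ} {f : ℝ → ℝ} (hf : Test B f) (E : ℝ → ℂ) (hE : Continuous E) :
    Integrable (fun v => (f v : ℂ) * E v) := by
  have hc := tcont hf
  have hcc : Continuous (fun v => (f v : ℂ) * E v) := by fun_prop
  apply hcc.integrable_of_hasCompactSupport
  apply HasCompactSupport.mul_right
  have h2 : HasCompactSupport ((fun y : ℝ => (y : ℂ)) ∘ f) := (tsupp hf).comp_left (by simp)
  exact h2

lemma excont : Continuous ex := by unfold ex; fun_prop

lemma exnorm (y : ℝ) : ‖ex y‖ = 1 := by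
  unfold ex
  exact Complex.norm_exp_ofReal_mul_I _

lemma exderiv (y : ℝ) : HasDerivAt ex (2 * Real.pi * Complex.I * ex y) y := by
  unfold ex
  have h1 : HasDerivAt (fun x : ℝ => ((2 * Real.pi * x : ℝ) * Complex.I : ℂ))
      (2 * Real.pi * Complex.I) y := by
    have h0 : HasDerivAt (fun x : ℝ => (2 * Real.pi * x : ℝ)) (2 * Real.pi) y := by
      simpa using (hasDerivAt_id y).const_mul (2 * Real.pi)
    have := h0.ofReal_comp.mul_const Complex.I
    simpa using this
  have := h1.cexp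
  convert this using 1
  ring

/-- the derivative of `g e^{-v}` -/
noncomputable def dg (g : ℝ → ℝ) (v : ℝ) : ℝ := deriv (fun v => g v * Real.exp (-v)) v

lemma dg_test {B : ℝ} {g : ℝ → ℝ} (hg : Test B g) : Test (B + 1) (dg g) := by
  have hs : ContDiff ℝ ((⊤ : ℕ∞) : WithTop ℕ∞) (fun v => g v * Real.exp (-v)) := by
    apply hg.smooth.mul
    fun_prop
  refine ⟨?_, fun v hv => ?_⟩
  · have h2 := (contDiff_infty_iff_deriv.1 hs).2
    exact h2
  · unfold dg
    have h1 : (fun v => g v * Real.exp (-v)) =ᶠ[nhds v] fun _ => (0 : ℝ) := by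
      have h2 : ∀ᶠ w in nhds v, B < |w| := by
        have : B < |v| := by linarith
        exact continuous_abs.continuousAt.eventually (lt_mem_nhds this)
      filter_upwards [h2] with w hw
      rw [hg.supp w hw.le, zero_mul]
    rw [h1.deriv_eq]
    simp

lemma osc_step {B : ℝ} {g : ℝ → ℝ} (hg : Test B g) (x τ : ℝ) :
    2 * (Real.pi : ℂ) * Complex.I * (x * τ : ℝ) * ∫ v, (g v : ℂ) * ex (x * Real.exp v * τ) =
      -∫ v, (dg g v : ℂ) * ex (x * Real.exp v * τ) := by
  set E : ℝ → ℂ := fun v => ex (x * Real.exp v * τ) with hE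
  have hEc : Continuous E := excont.comp (by fun_prop)
  have hEd : ∀ v, HasDerivAt E (((x * Real.exp v * τ : ℝ) : ℂ) *
      (2 * Real.pi * Complex.I * E v)) v := by
    intro v
    have h1 : HasDerivAt (fun v : ℝ => x * Real.exp v * τ) (x * Real.exp v * τ) v :=
      ((Real.hasDerivAt_exp v).const_mul x).mul_const τ
    have h2 := (exderiv (x * Real.exp v * τ)).scomp v h1
    rw [Complex.real_smul] at h2
    exact h2
  have hs : ContDiff ℝ ((⊤ : ℕ∞) : WithTop ℕ∞) (fun v => g v * Real.exp (-v)) := by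
    apply hg.smooth.mul
    fun_prop
  have hgd : ∀ v, HasDerivAt (fun v => g v * Real.exp (-v)) (dg g v) v := fun v =>
    ((hs.differentiable (by simp)) v).hasDerivAt
  have hgE : Test B (fun v => g v * Real.exp (-v)) := ⟨hs, fun v hv => by
    rw [hg.supp v hv, zero_mul]⟩
  have hh : ∀ v, HasDerivAt (fun v => ((g v * Real.exp (-v) : ℝ) : ℂ) * E v)
      ((dg g v : ℂ) * E v + 2 * (Real.pi : ℂ) * Complex.I * (x * τ : ℝ) * ((g v : ℂ) * E v)) v := by
    intro v
    have h1 := (hgd v).ofReal_comp.mul (hEd v)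
    refine h1.congr_deriv ?_
    have h2 : Real.exp (-v) * Real.exp v = 1 := by rw [← Real.exp_add]; simp
    have h3 : ((Real.exp (-v) : ℝ) : ℂ) * ((Real.exp v : ℝ) : ℂ) = 1 := by exact_mod_cast h2
    push_cast at h3 ⊢
    linear_combination (g v : ℂ) * x * τ * (2 * Real.pi * Complex.I * E v) * h3
  have hi0 := tint hgE E hEc
  have hi1 := tint (dg_test hg) E hEc
  have hi2 : Integrable (fun v => 2 * (Real.pi : ℂ) * Complex.I * (x * τ : ℝ) *
      ((g v : ℂ) * E v)) := (tint hg E hEc).const_mul _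
  have hz := integral_eq_zero_of_hasDerivAt_of_integrable hh (hi1.add hi2) hi0
  rw [integral_add hi1 hi2, integral_const_mul] at hz
  linear_combination hz

/-- two integrations by parts -/
lemma osc {B : ℝ} {g : ℝ → ℝ} (hg : Test B g) : ∃ C : ℝ, 0 < C ∧ ∀ x τ : ℝ, 0 < x → 0 < τ →
    ‖∫ v, (g v : ℂ) * ex (x * Real.exp v * τ)‖ ≤ C / (x * τ) ^ 2 := by
  refine ⟨(∫ v, |dg (dg g) v|) + 1, ?_, ?_⟩
  · have : 0 ≤ ∫ v, |dg (dg g) v| := integral_nonneg fun _ => abs_nonneg _
    linarith
  intro x τ hx hτ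
  have h1 := osc_step hg x τ
  have h2 := osc_step (dg_test hg) x τ
  set I0 := ∫ v, (g v : ℂ) * ex (x * Real.exp v * τ) with hI0
  set I1 := ∫ v, (dg g v : ℂ) * ex (x * Real.exp v * τ) with hI1
  set I2 := ∫ v, (dg (dg g) v : ℂ) * ex (x * Real.exp v * τ) with hI2
  have h3 : ‖I2‖ ≤ ∫ v, |dg (dg g) v| := by
    refine (norm_integral_le_integral_norm _).trans (le_of_eq ?_)
    congr 1
    ext v
    rw [norm_mul, exnorm, mul_one, Complex.norm_real, Real.norm_eq_abs]
  have h4 : (2 * (Real.pi : ℂ) * Complex.I * (x * τ : ℝ)) ^ 2 * I0 = I2 := by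
    linear_combination (2 * (Real.pi : ℂ) * Complex.I * (x * τ : ℝ)) * h1 - h2
  have h5 : (x * τ) ^ 2 * ‖I0‖ ≤ ‖I2‖ := by
    rw [← h4, norm_mul, norm_pow, norm_mul, norm_mul, norm_mul, Complex.norm_I, Complex.norm_real,
      Complex.norm_real, Real.norm_of_nonneg (by positivity : 0 ≤ x * τ),
      Real.norm_of_nonneg Real.pi_pos.le]
    have h6 : ‖(2 : ℂ)‖ = 2 := by simp
    rw [h6]
    apply mul_le_mul_of_nonneg_right _ (norm_nonneg _)
    have h7 : 0 < x * τ := by positivity
    have h8 := Real.pi_gt_three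
    have h9 : x * τ ≤ 2 * Real.pi * 1 * (x * τ) := by nlinarith
    gcongr
  rw [le_div_iff₀ (by positivity)]
  linarith

end H321VP
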